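import Pool.Agent.U278.SD.Core

/-!
# Finite additive bases of order two
-/

set_option autoImplicit false
set_option linter.unusedSectionVars false

open Real Finset

namespace Pool.Agent.U278.SD

/-- the indicator function of a finite set -/
noncomputable def ia (A : Finset ℕ) (i : ℕ) : ℝ := if i ∈ A then 1 else 0

/-- the exceptional places -/
noncomputable def ex (A : Finset ℕ) (m : ℕ) : ℝ := if m % 2 = 0 ∧ m / 2 ∈ A then 1 else 0

lemma ia_nonneg (A : Finset ℕ) (i : ℕ) : 0 ≤ ia A i := by unfold ia; split_ifs <;> norm_num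
lemma ex_nonneg (A : Finset ℕ) (m : ℕ) : 0 ≤ ex A m := by unfold ex; split_ifs <;> norm_num

lemma Ka_ia_le (A : Finset ℕ) (N : ℕ) : Ka (ia A) N ≤ A.card := by
  unfold Ka ia
  rw [← sum_filter, sum_const, nsmul_eq_mul, mul_one]
  have : ((range (N + 1)).filter (fun i => i ∈ A)).card ≤ A.card :=
    card_le_card fun i hi => (mem_filter.mp hi).2
  exact_mod_cast this

lemma ex_sum (A : Finset ℕ) (N : ℕ) : ∑ m ∈ range N, ex A m ≤ A.card := by
  unfold ex
  rw [← sum_filter, sum_const, nsmul_eq_mul, mul_one]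
  have : ((range N).filter (fun m => m % 2 = 0 ∧ m / 2 ∈ A)).card ≤ A.card := by
    apply card_le_card_of_injOn (fun m => m / 2)
    · intro m hm
      have := (mem_filter.mp (Finset.mem_coe.mp hm)).2.2
      exact this
    · intro m hm m' hm' h
      have h1 := (mem_filter.mp (Finset.mem_coe.mp hm)).2.1
      have h2 := (mem_filter.mp (Finset.mem_coe.mp hm')).2.1
      simp only at h
      omega
  exact_mod_cast this

lemma ra_ia (A : Finset ℕ) (m : ℕ) :
    ra (ia A) m = (((antidiagonal m).filter (fun p => p.1 ∈ A ∧ p.2 ∈ A)).card : ℝ) := by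
  unfold ra ia
  rw [card_filter]
  push_cast
  refine sum_congr rfl fun p _ => ?_
  by_cases h1 : p.1 ∈ A <;> by_cases h2 : p.2 ∈ A <;> simp [h1, h2]

lemma ra_ge {A : Finset ℕ} {m : ℕ} (h : ∃ i ∈ A, ∃ j ∈ A, i + j = m) :
    2 - ex A m ≤ ra (ia A) m := by
  obtain ⟨i, hi, j, hj, hij⟩ := h
  rw [ra_ia]
  by_cases hne : i = j
  · have he : ex A m = 1 := by
      unfold ex
      rw [if_pos]
      subst hne
      refine ⟨by omega, ?_⟩
      have : m / 2 = i := by omega
      rwa [this]
    rw [he]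
    have h1 : (i, j) ∈ (antidiagonal m).filter (fun p => p.1 ∈ A ∧ p.2 ∈ A) := by
      rw [mem_filter, HasAntidiagonal.mem_antidiagonal]
      exact ⟨hij, hi, hj⟩
    have h2 : 0 < ((antidiagonal m).filter (fun p => p.1 ∈ A ∧ p.2 ∈ A)).card :=
      card_pos.mpr ⟨_, h1⟩
    have h3 : (1 : ℝ) ≤ (((antidiagonal m).filter (fun p => p.1 ∈ A ∧ p.2 ∈ A)).card : ℝ) := by
      exact_mod_cast h2
    linarith
  · have h0 := ex_nonneg A m
    have h1 : ({(i, j), (j, i)} : Finset (ℕ × ℕ)) ⊆
        (antidiagonal m).filter (fun p => p.1 ∈ A ∧ p.2 ∈ A) := by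
      intro p hp
      rw [mem_insert, mem_singleton] at hp
      rw [mem_filter, HasAntidiagonal.mem_antidiagonal]
      rcases hp with rfl | rfl
      · exact ⟨hij, hi, hj⟩
      · exact ⟨by rw [add_comm]; exact hij, hj, hi⟩
    have h2 := card_le_card h1
    have h3 : ({(i, j), (j, i)} : Finset (ℕ × ℕ)).card = 2 := by
      rw [card_pair]
      intro h
      exact hne (Prod.ext_iff.mp h).1
    rw [h3] at h2
    have h4 : (2 : ℝ) ≤ (((antidiagonal m).filter (fun p => p.1 ∈ A ∧ p.2 ∈ A)).card : ℝ) := by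
      exact_mod_cast h2
    linarith

lemma root_of_unity {L k : ℕ} (hL : 0 < L) (hk : k < 4) :
    ‖Complex.exp (Complex.I * (fq L k : ℂ))‖ = 1 ∧
      Complex.exp (Complex.I * (fq L k : ℂ)) ^ (64 * L) = 1 ∧
      Complex.exp (Complex.I * (fq L k : ℂ)) ≠ 1 := by
  have hLR : (1 : ℝ) ≤ L := by exact_mod_cast hL
  have hk' : (k : ℝ) ≤ 3 := by exact_mod_cast (by omega : k ≤ 3)
  have hpi := Real.pi_pos
  have h0 : 0 < fq L k := by unfold fq; positivity
  have h1 : fq L k < 2 * π := by
    unfold fq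
    rw [div_lt_iff₀ (by linarith)]
    nlinarith
  refine ⟨?_, ?_, ?_⟩
  · rw [mul_comm]
    exact Complex.norm_exp_ofReal_mul_I _
  · rw [← Complex.exp_nat_mul, Complex.exp_eq_one_iff]
    refine ⟨k + 1, ?_⟩
    have hLC : (L : ℂ) ≠ 0 := by exact_mod_cast hL.ne'
    unfold fq
    push_cast
    field_simp
    ring
  · intro h
    rw [Complex.exp_eq_one_iff] at h
    obtain ⟨m, hm⟩ := h
    have h3 : fq L k = m * (2 * π) := by
      have h4 : Complex.I * (fq L k : ℂ) = Complex.I * ((m * (2 * π) : ℝ) : ℂ) := by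
        rw [hm]; push_cast; ring
      have h5 := mul_left_cancel₀ Complex.I_ne_zero h4
      exact_mod_cast h5
    have h6 : (0 : ℝ) < m := by
      by_contra hcon
      have : (m : ℝ) * (2 * π) ≤ 0 := by nlinarith
      linarith
    have h7 : (m : ℝ) < 1 := by
      by_contra hcon
      have : 1 * (2 * π) ≤ (m : ℝ) * (2 * π) := by nlinarith
      linarith
    have h8 : (0 : ℤ) < m := by exact_mod_cast h6
    have h9 : m < (1 : ℤ) := by exact_mod_cast h7
    omega

/-- multiples of `64` -/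
theorem bases64 {L : ℕ} (hL : 0 < L) {A : Finset ℕ}
    (hA : ∀ m ≤ 64 * L, ∃ i ∈ A, ∃ j ∈ A, i + j = m) :
    11 / 10 * 2 * (64 * L) ≤ (A.card : ℝ) ^ 2 + 2 * (2 * A.card) + 37 * 2 := by
  have hc : (0 : ℝ) ≤ A.card := Nat.cast_nonneg _
  have hK0 : 0 ≤ Ka (ia A) (64 * L) := sum_nonneg fun i _ => ia_nonneg A i
  have hex1 := ex_sum A (64 * L)
  have hra0 : ∀ m, 0 ≤ ra (ia A) m := fun m => by rw [ra_ia]; positivity
  have h := core hL (a := ia A) (ia_nonneg A) (c := 2) (E := 2 * A.card) (by norm_num)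
    (by positivity) ?_ ?_
  · have h1 := Ka_ia_le A (64 * L)
    have h2 : Ka (ia A) (64 * L) ^ 2 ≤ (A.card : ℝ) ^ 2 := pow_le_pow_left₀ hK0 h1 2
    linarith
  · intro k hk
    obtain ⟨w1, wn, wne⟩ := root_of_unity hL hk
    set w := Complex.exp (Complex.I * (fq L k : ℂ)) with hw
    have h1 := Fa_sq (ia_nonneg A) (64 * L) w1
    have h2 := Ka_sq (ia A) (64 * L)
    have hgeom : ∑ m ∈ range (64 * L), w ^ m = 0 := by
      have h := mul_neg_geom_sum w (64 * L)
      rw [wn, sub_self] at h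
      rcases mul_eq_zero.mp h with h | h
      · exact absurd (by linear_combination -h) wne
      · exact h
    have h3 : ∑ m ∈ range (64 * L + 1), (ra (ia A) m : ℂ) * w ^ m =
        ∑ m ∈ range (64 * L), ((ra (ia A) m - 2 : ℝ) : ℂ) * w ^ m +
          (ra (ia A) (64 * L) : ℂ) * w ^ (64 * L) := by
      rw [sum_range_succ]
      congr 1
      have : ∑ m ∈ range (64 * L), ((ra (ia A) m - 2 : ℝ) : ℂ) * w ^ m =
          ∑ m ∈ range (64 * L), (ra (ia A) m : ℂ) * w ^ m - 2 * ∑ m ∈ range (64 * L), w ^ m := by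
        rw [mul_sum, ← sum_sub_distrib]
        refine sum_congr rfl fun m _ => ?_
        push_cast; ring
      rw [this, hgeom]; ring
    have h4 : ‖∑ m ∈ range (64 * L + 1), (ra (ia A) m : ℂ) * w ^ m‖ ≤
        Ra (ia A) (64 * L) - 2 * (64 * L) + 2 * A.card := by
      rw [h3]
      refine (norm_add_le _ _).trans ?_
      have e1 : ‖(ra (ia A) (64 * L) : ℂ) * w ^ (64 * L)‖ = ra (ia A) (64 * L) := by
        rw [wn, mul_one, Complex.norm_real, Real.norm_eq_abs, abs_of_nonneg (hra0 _)]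
      have e2 : ‖∑ m ∈ range (64 * L), ((ra (ia A) m - 2 : ℝ) : ℂ) * w ^ m‖ ≤
          ∑ m ∈ range (64 * L), (ra (ia A) m - 2 + 2 * ex A m) := by
        refine (norm_sum_le _ _).trans (sum_le_sum fun m hm => ?_)
        have hm' := mem_range.mp hm
        rw [norm_mul, norm_pow, w1, one_pow, mul_one, Complex.norm_real, Real.norm_eq_abs]
        have a1 := ra_ge (hA m (by omega))
        have a2 := ex_nonneg A m
        rw [abs_le]
        constructor <;> linarith
      have e3 : ∑ m ∈ range (64 * L), (ra (ia A) m - 2 + 2 * ex A m) =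
          ∑ m ∈ range (64 * L), ra (ia A) m - 2 * (64 * L) + 2 * ∑ m ∈ range (64 * L), ex A m := by
        rw [sum_add_distrib, sum_sub_distrib, ← mul_sum, sum_const, card_range, nsmul_eq_mul]
        push_cast; ring
      have e4 : Ra (ia A) (64 * L) = ∑ m ∈ range (64 * L), ra (ia A) m + ra (ia A) (64 * L) := by
        unfold Ra; rw [sum_range_succ]
      rw [e1, e4]
      linarith
    linarith
  · have h1 : ∑ m ∈ range (64 * L + 1), ra (ia A) m * ip L uu m =
        ∑ z ∈ range (64 * L), ra (ia A) (z + 1) * ip L uu (z + 1) + ra (ia A) 0 * ip L uu 0 :=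
      sum_range_succ' _ _
    have h2 : 0 ≤ ra (ia A) 0 * ip L uu 0 := mul_nonneg (hra0 0) (ip_nonneg hL 0)
    have h3 : ∑ z ∈ range (64 * L), (2 * ip L uu (z + 1) - ex A (z + 1)) ≤
        ∑ z ∈ range (64 * L), ra (ia A) (z + 1) * ip L uu (z + 1) := by
      refine sum_le_sum fun z hz => ?_
      have hz' := mem_range.mp hz
      have a1 := ra_ge (hA (z + 1) (by omega))
      have a2 := ex_nonneg A (z + 1)
      have a3 := ip_nonneg hL (z + 1)
      have a4 := ip_le_one hL (x := z + 1) (by omega)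
      have a5 : (2 - ex A (z + 1)) * ip L uu (z + 1) ≤ ra (ia A) (z + 1) * ip L uu (z + 1) :=
        mul_le_mul_of_nonneg_right a1 a3
      nlinarith
    rw [sum_sub_distrib, ← mul_sum] at h3
    have h4 : ∑ z ∈ range (64 * L), ex A (z + 1) ≤ A.card := by
      have h5 := ex_sum A (64 * L + 1)
      rw [sum_range_succ'] at h5
      have := ex_nonneg A 0
      linarith
    rw [h1]
    linarith

/-- **Finite additive bases of order two.** -/
theorem bases {n : ℕ} {A : Finset ℕ} (hA : ∀ m ≤ n, ∃ i ∈ A, ∃ j ∈ A, i + j = m) :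
    11 * n ≤ 5 * A.card ^ 2 + 20 * A.card + 1100 := by
  rcases Nat.eq_zero_or_pos (n / 64) with h0 | h0
  · have : n < 64 := by
      have := Nat.div_add_mod n 64
      have := Nat.mod_lt n (by norm_num : 0 < 64)
      omega
    omega
  · have hn := Nat.div_add_mod n 64
    have hm := Nat.mod_lt n (by norm_num : 0 < 64)
    have h := bases64 h0 (A := A) (fun m hm => hA m (by omega))
    have hnR : (n : ℝ) ≤ 64 * ((n / 64 : ℕ) : ℝ) + 63 := by
      exact_mod_cast (by omega : n ≤ 64 * (n / 64) + 63)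
    have h2 : (11 * n : ℝ) ≤ 5 * (A.card : ℝ) ^ 2 + 20 * A.card + 1100 := by linarith
    exact_mod_cast h2

end Pool.Agent.U278.SD
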