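import Pool.Agent.U278.SD.Interp

/-!
# The inequality between the number of elements and the sums
-/

set_option autoImplicit false

open Real Finset

namespace Pool.Agent.U278.SD

/-- the total mass -/
noncomputable def Ka (a : ℕ → ℝ) (N : ℕ) : ℝ := ∑ i ∈ range (N + 1), a i
/-- the exponential sum -/
noncomputable def Fa (a : ℕ → ℝ) (N : ℕ) (w : ℂ) : ℂ := ∑ i ∈ range (N + 1), (a i : ℂ) * w ^ i
/-- the weighted number of representations -/
noncomputable def ra (a : ℕ → ℝ) (m : ℕ) : ℝ := ∑ p ∈ antidiagonal m, a p.1 * a p.2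
/-- the mass of the pairs with a small sum -/
noncomputable def Ra (a : ℕ → ℝ) (N : ℕ) : ℝ := ∑ m ∈ range (N + 1), ra a m
/-- the mass of the pairs with a large sum -/
noncomputable def Qa (a : ℕ → ℝ) (N : ℕ) : ℝ :=
  ∑ p ∈ (range (N + 1) ×ˢ range (N + 1)).filter (fun p => ¬ p.1 + p.2 ≤ N), a p.1 * a p.2

lemma Ka_sq (a : ℕ → ℝ) (N : ℕ) : Ka a N ^ 2 = Ra a N + Qa a N := by
  unfold Ra Qa ra
  rw [← Pool.Agent.H394R2.Ones.pair_sum N (fun i j => a i * a j), sq]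
  unfold Ka
  rw [sum_mul_sum, sum_product]

lemma Fa_sq {a : ℕ → ℝ} (ha : ∀ i, 0 ≤ a i) (N : ℕ) {w : ℂ} (hw : ‖w‖ = 1) :
    ‖Fa a N w‖ ^ 2 ≤ ‖∑ m ∈ range (N + 1), (ra a m : ℂ) * w ^ m‖ + Qa a N := by
  have h1 : Fa a N w ^ 2 = ∑ m ∈ range (N + 1), (ra a m : ℂ) * w ^ m
      + ∑ p ∈ (range (N + 1) ×ˢ range (N + 1)).filter (fun p => ¬ p.1 + p.2 ≤ N),
        ((a p.1 : ℂ) * w ^ p.1) * ((a p.2 : ℂ) * w ^ p.2) := by
    have h2 : Fa a N w ^ 2 = ∑ p ∈ range (N + 1) ×ˢ range (N + 1),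
        ((a p.1 : ℂ) * w ^ p.1) * ((a p.2 : ℂ) * w ^ p.2) := by
      unfold Fa
      rw [sq, sum_mul_sum, sum_product]
    rw [h2, Pool.Agent.H394R2.Ones.pair_sum N
      (fun i j => ((a i : ℂ) * w ^ i) * ((a j : ℂ) * w ^ j))]
    congr 1
    refine sum_congr rfl fun m _ => ?_
    unfold ra
    push_cast
    rw [sum_mul]
    refine sum_congr rfl fun p hp => ?_
    rw [HasAntidiagonal.mem_antidiagonal] at hp
    rw [← hp, pow_add]
    ring
  rw [← norm_pow, h1]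
  refine (norm_add_le _ _).trans ?_
  gcongr
  refine (norm_sum_le _ _).trans ?_
  unfold Qa
  refine sum_le_sum fun p _ => ?_
  rw [norm_mul, norm_mul, norm_mul, norm_pow, norm_pow, hw, one_pow, one_pow, mul_one, mul_one,
    Complex.norm_real, Complex.norm_real, Real.norm_eq_abs, Real.norm_eq_abs,
    abs_of_nonneg (ha _), abs_of_nonneg (ha _)]

/-- the frequencies -/
noncomputable def fq (L k : ℕ) : ℝ := π / 32 * (k + 1) / L

/-- weighted sums over the places -/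
noncomputable def Sa (a : ℕ → ℝ) (N : ℕ) (u : ℕ → ℝ) : ℝ := ∑ x ∈ range (N + 1), a x * u x

lemma Sa_mul (a : ℕ → ℝ) (N : ℕ) (u : ℕ → ℝ) :
    ∑ x ∈ range (N + 1), ∑ y ∈ range (N + 1), a x * a y * (u x * u y) = Sa a N u ^ 2 := by
  unfold Sa
  rw [sq, sum_mul_sum]
  refine sum_congr rfl fun x _ => sum_congr rfl fun y _ => by ring

lemma trig_le {L : ℕ} (hL : 0 < L) {a : ℕ → ℝ} (ha : ∀ i, 0 ≤ a i) (k : ℕ) (hk : k < 4) (N : ℕ) :
    Sa a N (ip L (cc k)) ^ 2 + Sa a N (ip L (ss k)) ^ 2 ≤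
      (‖Fa a N (Complex.exp (Complex.I * (fq L k : ℂ)))‖ + ek k * Ka a N) ^ 2 := by
  have h1 : ‖(⟨Sa a N (ip L (cc k)), Sa a N (ip L (ss k))⟩ : ℂ)‖ ^ 2 =
      Sa a N (ip L (cc k)) ^ 2 + Sa a N (ip L (ss k)) ^ 2 := by
    rw [← Complex.normSq_eq_norm_sq, Complex.normSq_mk]; ring
  rw [← h1]
  apply pow_le_pow_left₀ (norm_nonneg _)
  have h2 : (⟨Sa a N (ip L (cc k)), Sa a N (ip L (ss k))⟩ : ℂ) =
      Fa a N (Complex.exp (Complex.I * (fq L k : ℂ))) +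
        ∑ x ∈ range (N + 1), (a x : ℂ) * ((⟨ip L (cc k) x, ip L (ss k) x⟩ : ℂ) -
          Complex.exp (Complex.I * (((π / 32 * (k + 1) / L) * x : ℝ) : ℂ))) := by
    unfold Fa
    rw [← sum_add_distrib]
    have h3 : ∀ x : ℕ, (a x : ℂ) * Complex.exp (Complex.I * (fq L k : ℂ)) ^ x +
        (a x : ℂ) * ((⟨ip L (cc k) x, ip L (ss k) x⟩ : ℂ) -
          Complex.exp (Complex.I * (((π / 32 * (k + 1) / L) * x : ℝ) : ℂ))) =
        (a x : ℂ) * (⟨ip L (cc k) x, ip L (ss k) x⟩ : ℂ) := by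
      intro x
      have e : Complex.exp (Complex.I * (fq L k : ℂ)) ^ x =
          Complex.exp (Complex.I * (((π / 32 * (k + 1) / L) * x : ℝ) : ℂ)) := by
        rw [← Complex.exp_nat_mul]
        congr 1
        unfold fq
        push_cast; ring
      rw [e]; ring
    simp only [h3]
    apply Complex.ext
    · rw [Complex.re_sum]
      show Sa a N (ip L (cc k)) = _
      unfold Sa
      refine sum_congr rfl fun x _ => ?_
      simp
    · rw [Complex.im_sum]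
      show Sa a N (ip L (ss k)) = _
      unfold Sa
      refine sum_congr rfl fun x _ => ?_
      simp
  rw [h2]
  refine (norm_add_le _ _).trans ?_
  gcongr
  refine (norm_sum_le _ _).trans ?_
  unfold Ka
  rw [mul_sum]
  refine sum_le_sum fun x _ => ?_
  rw [norm_mul, Complex.norm_real, Real.norm_eq_abs, abs_of_nonneg (ha x), mul_comm]
  exact mul_le_mul_of_nonneg_right (interp_all hL k hk x) (ha x)

/-- double sums -/
noncomputable def DD (a : ℕ → ℝ) (N : ℕ) (f : ℕ → ℕ → ℝ) : ℝ :=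
  ∑ x ∈ range (N + 1), ∑ y ∈ range (N + 1), a x * a y * f x y

lemma DD_add (a : ℕ → ℝ) (N : ℕ) (f g : ℕ → ℕ → ℝ) :
    DD a N (fun x y => f x y + g x y) = DD a N f + DD a N g := by
  unfold DD
  rw [← sum_add_distrib]
  refine sum_congr rfl fun x _ => ?_
  rw [← sum_add_distrib]
  exact sum_congr rfl fun y _ => by ring

lemma DD_sub (a : ℕ → ℝ) (N : ℕ) (f g : ℕ → ℕ → ℝ) :
    DD a N (fun x y => f x y - g x y) = DD a N f - DD a N g := by
  unfold DD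
  rw [← sum_sub_distrib]
  refine sum_congr rfl fun x _ => ?_
  rw [← sum_sub_distrib]
  exact sum_congr rfl fun y _ => by ring

lemma DD_mul (a : ℕ → ℝ) (N : ℕ) (c : ℝ) (f : ℕ → ℕ → ℝ) :
    DD a N (fun x y => c * f x y) = c * DD a N f := by
  unfold DD
  rw [mul_sum]
  refine sum_congr rfl fun x _ => ?_
  rw [mul_sum]
  exact sum_congr rfl fun y _ => by ring

lemma DD_one (a : ℕ → ℝ) (N : ℕ) : DD a N (fun _ _ => 1) = Ka a N ^ 2 := by
  unfold DD Ka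
  rw [sq, sum_mul_sum]
  exact sum_congr rfl fun x _ => sum_congr rfl fun y _ => by ring

lemma DD_prod (a : ℕ → ℝ) (N : ℕ) (u : ℕ → ℝ) :
    DD a N (fun x y => u x * u y) = Sa a N u ^ 2 := Sa_mul a N u

/-- the double sum of the kernel -/
lemma double_sum (L : ℕ) (a : ℕ → ℝ) (N : ℕ) :
    DD a N (ip2 L ker) =
      10092 / 10000 * Ka a N ^ 2 - DD a N (ip2 L (fun i j => ww (i + j))) -
        (298 / 1000 * (Ka a N ^ 2 - (Sa a N (ip L (cc 0)) ^ 2 + Sa a N (ip L (ss 0)) ^ 2)) +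
         147 / 1000 * (Ka a N ^ 2 - (Sa a N (ip L (cc 1)) ^ 2 + Sa a N (ip L (ss 1)) ^ 2)) +
         74 / 1000 * (Ka a N ^ 2 - (Sa a N (ip L (cc 2)) ^ 2 + Sa a N (ip L (ss 2)) ^ 2)) +
         24 / 1000 * (Ka a N ^ 2 - (Sa a N (ip L (cc 3)) ^ 2 + Sa a N (ip L (ss 3)) ^ 2))) -
        (Sa a N (ip L (gg 0)) ^ 2 + Sa a N (ip L (gg 1)) ^ 2 + Sa a N (ip L (gg 2)) ^ 2 +
         Sa a N (ip L (gg 3)) ^ 2 + Sa a N (ip L (gg 4)) ^ 2 + Sa a N (ip L (gg 5)) ^ 2 +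
         Sa a N (ip L (gg 6)) ^ 2 + Sa a N (ip L (gg 7)) ^ 2) := by
  have h : ip2 L ker = fun x y =>
      10092 / 10000 * 1 - ip2 L (fun i j => ww (i + j)) x y -
        (298 / 1000 * (1 - (ip L (cc 0) x * ip L (cc 0) y + ip L (ss 0) x * ip L (ss 0) y)) +
         147 / 1000 * (1 - (ip L (cc 1) x * ip L (cc 1) y + ip L (ss 1) x * ip L (ss 1) y)) +
         74 / 1000 * (1 - (ip L (cc 2) x * ip L (cc 2) y + ip L (ss 2) x * ip L (ss 2) y)) +
         24 / 1000 * (1 - (ip L (cc 3) x * ip L (cc 3) y + ip L (ss 3) x * ip L (ss 3) y))) -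
        (ip L (gg 0) x * ip L (gg 0) y + ip L (gg 1) x * ip L (gg 1) y +
         ip L (gg 2) x * ip L (gg 2) y + ip L (gg 3) x * ip L (gg 3) y +
         ip L (gg 4) x * ip L (gg 4) y + ip L (gg 5) x * ip L (gg 5) y +
         ip L (gg 6) x * ip L (gg 6) y + ip L (gg 7) x * ip L (gg 7) y) := by
    funext x y
    rw [ip2_ker]
    simp only [sum_range_succ, sum_range_zero, vk]
    ring
  rw [h]
  simp only [DD_sub, DD_add, DD_mul, DD_one, DD_prod]

/-- **The main inequality.** -/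
theorem core {L : ℕ} (hL : 0 < L) {a : ℕ → ℝ} (ha : ∀ i, 0 ≤ a i) {c E : ℝ} (hc : 0 ≤ c)
    (hE : 0 ≤ E)
    (H1 : ∀ k < 4, ‖Fa a (64 * L) (Complex.exp (Complex.I * (fq L k : ℂ)))‖ ^ 2 ≤
      Ka a (64 * L) ^ 2 - c * (64 * L) + E)
    (H2 : c * ∑ z ∈ range (64 * L), ip L uu (z + 1) - E ≤
      ∑ m ∈ range (64 * L + 1), ra a m * ip L uu m) :
    11 / 10 * c * (64 * L) ≤ Ka a (64 * L) ^ 2 + 2 * E + 37 * c := by
  have hLR : (1 : ℝ) ≤ L := by exact_mod_cast hL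
  set X : ℝ := Ka a (64 * L) ^ 2 with hX
  have hK0 : 0 ≤ Ka a (64 * L) := sum_nonneg fun i _ => ha i
  have hX0 : 0 ≤ X := sq_nonneg _
  set e : ℝ := X - c * (64 * L) + E with he
  have he0 : 0 ≤ e := (sq_nonneg _).trans (H1 0 (by norm_num))
  -- the four trigonometric sums
  have hT : ∀ k < 4, Sa a (64 * L) (ip L (cc k)) ^ 2 + Sa a (64 * L) (ip L (ss k)) ^ 2 ≤
      e + ek k * (3 / 10 * X + e / (3 / 10)) + ek k ^ 2 * X := by
    intro k hk
    refine (trig_le hL ha k hk (64 * L)).trans ?_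
    have h1 : ‖Fa a (64 * L) (Complex.exp (Complex.I * (fq L k : ℂ)))‖ ≤ √e :=
      Real.le_sqrt_of_sq_le (H1 k hk)
    have h2 := ek_nonneg k
    have h3 : (‖Fa a (64 * L) (Complex.exp (Complex.I * (fq L k : ℂ)))‖ +
        ek k * Ka a (64 * L)) ^ 2 ≤ (√e + ek k * Ka a (64 * L)) ^ 2 := by
      apply pow_le_pow_left₀ (by positivity)
      gcongr
    refine h3.trans ?_
    have h4 := Real.sq_sqrt he0
    have h5 : 2 * (√e * Ka a (64 * L)) ≤ 3 / 10 * X + e / (3 / 10) := by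
      rw [hX]
      nlinarith [sq_nonneg (3 * Ka a (64 * L) - 10 * √e)]
    have h6 := mul_le_mul_of_nonneg_left h5 h2
    calc (√e + ek k * Ka a (64 * L)) ^ 2 = √e ^ 2 + ek k * (2 * (√e * Ka a (64 * L))) +
          ek k ^ 2 * X := by rw [hX]; ring
      _ ≤ _ := by rw [h4]; linarith
  have h0 : 0 ≤ DD a (64 * L) (ip2 L ker) := by
    refine sum_nonneg fun x hx => sum_nonneg fun y hy => ?_
    have hx' := mem_range.mp hx
    have hy' := mem_range.mp hy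
    exact mul_nonneg (mul_nonneg (ha _) (ha _)) (ip2_nonneg hL ker_nonneg (by omega) (by omega))
  rw [double_sum] at h0
  have hG : 0 ≤ Sa a (64 * L) (ip L (gg 0)) ^ 2 + Sa a (64 * L) (ip L (gg 1)) ^ 2 +
      Sa a (64 * L) (ip L (gg 2)) ^ 2 + Sa a (64 * L) (ip L (gg 3)) ^ 2 +
      Sa a (64 * L) (ip L (gg 4)) ^ 2 + Sa a (64 * L) (ip L (gg 5)) ^ 2 +
      Sa a (64 * L) (ip L (gg 6)) ^ 2 + Sa a (64 * L) (ip L (gg 7)) ^ 2 := by positivity
  have hW2 : ∑ m ∈ range (64 * L + 1), ra a m * ip L uu m ≤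
      DD a (64 * L) (ip2 L (fun i j => ww (i + j))) := pairs_ge hL ha
  have hS := mul_le_mul_of_nonneg_left (ip_sum hL) hc
  have t0 := hT 0 (by norm_num)
  have t1 := hT 1 (by norm_num)
  have t2 := hT 2 (by norm_num)
  have t3 := hT 3 (by norm_num)
  simp only [ek] at t0 t1 t2 t3
  have hcL : 0 ≤ c * (L : ℝ) := mul_nonneg hc (by linarith)
  rw [he] at t0 t1 t2 t3
  nlinarith

end Pool.Agent.U278.SD
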