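import Pool.Agent.U278.SD.Tab

/-!
# Lower bounds for the cosines
-/

set_option autoImplicit false

open Real

namespace Pool.Agent.U278.SD

lemma sqrt_bd {x l u lx ux : ℝ} (_hl0 : 0 ≤ l) (hx1 : lx ≤ x) (hx2 : x ≤ ux)
    (hl : l ^ 2 ≤ lx) (hu : ux ≤ u ^ 2) (hu0 : 0 ≤ u) :
    l ≤ √x ∧ √x ≤ u := by
  constructor
  · exact Real.le_sqrt_of_sq_le (hl.trans hx1)
  · rw [← Real.sqrt_sq hu0]
    exact Real.sqrt_le_sqrt (hx2.trans hu)

lemma s1_bd : (1.4142135623730 : ℝ) ≤ √2 ∧ √2 ≤ 1.4142135623731 :=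
  sqrt_bd (by norm_num) (le_refl 2) (le_refl 2) (by norm_num) (by norm_num) (by norm_num)

lemma s2_bd : (1.8477590650225 : ℝ) ≤ √(2 + √2) ∧ √(2 + √2) ≤ 1.8477590650226 :=
  sqrt_bd (lx := 2 + 1.4142135623730) (ux := 2 + 1.4142135623731) (by norm_num)
    (by linarith [s1_bd.1]) (by linarith [s1_bd.2]) (by norm_num) (by norm_num) (by norm_num)

lemma s3_bd : (1.9615705608064 : ℝ) ≤ √(2 + √(2 + √2)) ∧ √(2 + √(2 + √2)) ≤ 1.9615705608065 :=
  sqrt_bd (lx := 2 + 1.8477590650225) (ux := 2 + 1.8477590650226) (by norm_num)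
    (by linarith [s2_bd.1]) (by linarith [s2_bd.2]) (by norm_num) (by norm_num) (by norm_num)

lemma s4_bd : (1.990369453344 : ℝ) ≤ √(2 + √(2 + √(2 + √2))) ∧
    √(2 + √(2 + √(2 + √2))) ≤ 1.990369453345 :=
  sqrt_bd (lx := 2 + 1.9615705608064) (ux := 2 + 1.9615705608065) (by norm_num)
    (by linarith [s3_bd.1]) (by linarith [s3_bd.2]) (by norm_num) (by norm_num) (by norm_num)

lemma s5_bd : (0.19603428065 : ℝ) ≤ √(2 - √(2 + √(2 + √2))) ∧
    √(2 - √(2 + √(2 + √2))) ≤ 0.19603428066 :=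
  sqrt_bd (lx := 2 - 1.9615705608065) (ux := 2 - 1.9615705608064) (by norm_num)
    (by linarith [s3_bd.2]) (by linarith [s3_bd.1]) (by norm_num) (by norm_num) (by norm_num)

lemma at_one : at9 1 = 995184727 := by decide +kernel
lemma bt_one : bt9 1 = 98017140 := by decide +kernel
lemma at_zero : at9 0 = 1000000000 := by decide +kernel
lemma bt_zero : bt9 0 = 0 := by decide +kernel

lemma cos_one : |cos (π / 32) - (at9 1 : ℝ) / 10 ^ 9| ≤ 1 / 10 ^ 9 := by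
  rw [Real.cos_pi_div_thirty_two, at_one, abs_le]
  have h := s4_bd
  constructor
  · norm_num at h ⊢; linarith [h.1]
  · norm_num at h ⊢; linarith [h.2]

lemma sin_one : |sin (π / 32) - (bt9 1 : ℝ) / 10 ^ 9| ≤ 1 / 10 ^ 9 := by
  rw [Real.sin_pi_div_thirty_two, bt_one, abs_le]
  have h := s5_bd
  constructor
  · norm_num at h ⊢; linarith [h.1]
  · norm_num at h ⊢; linarith [h.2]

/-- the approximation of `exp (i π k / 32)` -/
noncomputable def Z (k : ℕ) : ℂ := ⟨(at9 k : ℝ) / 10 ^ 9, (bt9 k : ℝ) / 10 ^ 9⟩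

/-- `exp (i π k / 32)` -/
noncomputable def ez (k : ℕ) : ℂ := ⟨cos (π / 32 * k), sin (π / 32 * k)⟩

lemma ez_succ (k : ℕ) : ez (k + 1) = ez k * ez 1 := by
  unfold ez
  apply Complex.ext
  · simp only [Complex.mul_re]
    rw [← Real.cos_add]
    congr 1; push_cast; ring
  · simp only [Complex.mul_im]
    rw [show π / 32 * ((k + 1 : ℕ) : ℝ) = π / 32 * k + π / 32 * (1 : ℕ) by push_cast; ring,
      Real.sin_add]
    ring

lemma norm_ez (k : ℕ) : ‖ez k‖ = 1 := by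
  have h : ‖ez k‖ ^ 2 = 1 := by
    rw [← Complex.normSq_eq_norm_sq]
    unfold ez
    rw [Complex.normSq_mk]
    nlinarith [Real.cos_sq_add_sin_sq (π / 32 * k)]
  nlinarith [norm_nonneg (ez k)]

lemma norm_le_add (z : ℂ) {a b : ℝ} (h1 : |z.re| ≤ a) (h2 : |z.im| ≤ b) : ‖z‖ ≤ a + b :=
  (Complex.norm_le_abs_re_add_abs_im z).trans (add_le_add h1 h2)

lemma err_one : ‖ez 1 - Z 1‖ ≤ 2 / 10 ^ 9 := by
  have h := norm_le_add (ez 1 - Z 1) (a := 1 / 10 ^ 9) (b := 1 / 10 ^ 9)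
    (by have := cos_one; unfold ez Z; simpa using this)
    (by have := sin_one; unfold ez Z; simpa using this)
  linarith

lemma err_rot (k : ℕ) (hk : k < 63) : ‖Z (k + 1) - Z k * Z 1‖ ≤ 4 / 10 ^ 9 := by
  have h := chkR_true
  unfold chkR at h
  rw [List.all_eq_true] at h
  have h1 := h k (List.mem_range.mpr hk)
  rw [Bool.and_eq_true, decide_eq_true_eq, decide_eq_true_eq] at h1
  obtain ⟨ha, hb⟩ := h1
  have haR : |(at9 k : ℝ) * at9 1 - bt9 k * bt9 1 - 1000000000 * at9 (k + 1)| ≤ 2000000000 := by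
    exact_mod_cast ha
  have hbR : |(at9 k : ℝ) * bt9 1 + bt9 k * at9 1 - 1000000000 * bt9 (k + 1)| ≤ 2000000000 := by
    exact_mod_cast hb
  have h2 := norm_le_add (Z (k + 1) - Z k * Z 1) (a := 2 / 10 ^ 9) (b := 2 / 10 ^ 9) ?_ ?_
  · linarith
  · unfold Z
    simp only [Complex.sub_re, Complex.mul_re]
    rw [abs_le] at haR ⊢
    constructor <;> [linarith [haR.2]; linarith [haR.1]]
  · unfold Z
    simp only [Complex.sub_im, Complex.mul_im]
    rw [abs_le] at hbR ⊢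
    constructor <;> [linarith [hbR.2]; linarith [hbR.1]]

lemma err_all (k : ℕ) (hk : k ≤ 63) : ‖ez k - Z k‖ ≤ k * (7 / 10 ^ 9) := by
  induction k with
  | zero =>
    have : ez 0 - Z 0 = 0 := by
      unfold ez Z
      rw [at_zero, bt_zero]
      apply Complex.ext <;> norm_num
    rw [this]; simp
  | succ k ih =>
    have h1 := ih (by omega)
    have h2 := err_rot k (by omega)
    have h3 := err_one
    have h4 : ‖Z k‖ ≤ 1.1 := by
      have h5 : ‖Z k‖ ≤ ‖ez k‖ + ‖ez k - Z k‖ := by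
        have := norm_sub_le (ez k) (ez k - Z k)
        simpa using this
      have hk' : (k : ℝ) ≤ 63 := by exact_mod_cast (by omega : k ≤ 63)
      rw [norm_ez] at h5
      norm_num at h1 h5 ⊢
      linarith
    have e : ez (k + 1) - Z (k + 1) = (ez k - Z k) * ez 1 + Z k * (ez 1 - Z 1)
        - (Z (k + 1) - Z k * Z 1) := by
      rw [ez_succ]; ring
    rw [e]
    calc ‖(ez k - Z k) * ez 1 + Z k * (ez 1 - Z 1) - (Z (k + 1) - Z k * Z 1)‖
        ≤ ‖(ez k - Z k) * ez 1 + Z k * (ez 1 - Z 1)‖ + ‖Z (k + 1) - Z k * Z 1‖ := norm_sub_le _ _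
      _ ≤ ‖(ez k - Z k) * ez 1‖ + ‖Z k * (ez 1 - Z 1)‖ + ‖Z (k + 1) - Z k * Z 1‖ := by
          gcongr; exact norm_add_le _ _
      _ = ‖ez k - Z k‖ + ‖Z k‖ * ‖ez 1 - Z 1‖ + ‖Z (k + 1) - Z k * Z 1‖ := by
          rw [norm_mul, norm_mul, norm_ez, mul_one]
      _ ≤ k * (7 / 10 ^ 9) + 1.1 * (2 / 10 ^ 9) + 4 / 10 ^ 9 := by gcongr
      _ ≤ ((k + 1 : ℕ) : ℝ) * (7 / 10 ^ 9) := by push_cast; norm_num; linarith

/-- the lower bounds -/
theorem ct_le (k : ℕ) (hk : k < 64) : (ct k : ℝ) / 10 ^ 6 ≤ cos (π / 32 * k) := by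
  have h := chkC_true
  unfold chkC at h
  rw [List.all_eq_true] at h
  have h1 := h k (List.mem_range.mpr hk)
  rw [decide_eq_true_eq] at h1
  have h1R : 1000 * (ct k : ℝ) + 1000 ≤ at9 k := by exact_mod_cast h1
  have h2 := err_all k (by omega)
  have h3 := (Complex.abs_re_le_norm (ez k - Z k)).trans h2
  have h4 : (ez k - Z k).re = cos (π / 32 * k) - (at9 k : ℝ) / 10 ^ 9 := rfl
  rw [h4, abs_le] at h3
  have hk' : (k : ℝ) ≤ 63 := by exact_mod_cast (by omega : k ≤ 63)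
  have h5 := h3.1
  norm_num at h5 ⊢
  linarith

end Pool.Agent.U278.SD
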