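import Pool.Agent.U278.SD.Core
import Pool.Agent.H820R3.DG.Four

/-!
# Digit sums: the inequality for the digits of quadratic irrationals
-/

set_option autoImplicit false
set_option linter.unusedSectionVars false

open Finset

namespace Pool.Agent.U278.SD

open Pool.Agent.H394R2.Ones Pool.Agent.H820R3.DG

section
variable {b : ℕ} {y : ℝ} (hb : 2 ≤ b) (hy0 : 0 < y) (hy1 : y < 1) (hirr : Irrational y)
  {τ D : ℝ} {n : ℕ} {d : ℕ → ℝ} (hd0 : ∀ m, 0 ≤ d m) (hd : ∀ m, τ - d m ≤ T b y m)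
  (hD : ∑ m ∈ range n, d m ≤ D)

/-- the error term -/
noncomputable def Er' (b : ℕ) (y τ D : ℝ) (n : ℕ) : ℝ :=
  (K b y n : ℝ) ^ 2 - ((b : ℝ) - 1) * τ * n + 2 * ((b : ℝ) - 1) * D + (26 * b + 2) * (K b y n + 1)

include hb hy0 hy1 hirr hd0 hd hD in
lemma norm_r_sum26 (hn : 0 < n) {w : ℂ} (hw1 : ‖w‖ = 1) (hwn : w ^ n = 1) (hw : w ≠ 1)
    (hwd : ‖w - 1‖ * n ≤ 26) :
    ‖∑ m ∈ range (n + 1), (r b y m : ℂ) * w ^ m‖ + (K b y n : ℝ) ^ 2 - R b y n ≤
      Er' b y τ D n := by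
  have hbR : (2 : ℝ) ≤ b := by exact_mod_cast hb
  have hn0 : (0 : ℝ) < n := by exact_mod_cast hn
  have hwp : ∀ m, ‖w ^ m‖ = 1 := fun m => by rw [norm_pow, hw1, one_pow]
  have hgeom : ∑ m ∈ range n, w ^ m = 0 := by
    have h := mul_neg_geom_sum w n
    rw [hwn, sub_self] at h
    rcases mul_eq_zero.mp h with h | h
    · exact absurd (by linear_combination -h) hw
    · exact h
  have hA : ∑ m ∈ range n, (T b y m : ℂ) * w ^ m
      = ∑ m ∈ range n, ((T b y m - τ : ℝ) : ℂ) * w ^ m := by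
    have h1 : ∑ m ∈ range n, ((T b y m - τ : ℝ) : ℂ) * w ^ m
        = ∑ m ∈ range n, (T b y m : ℂ) * w ^ m - τ * ∑ m ∈ range n, w ^ m := by
      rw [mul_sum, ← sum_sub_distrib]
      refine sum_congr rfl fun m _ => ?_
      push_cast
      ring
    rw [h1, hgeom, mul_zero, sub_zero]
  have h1 : ‖∑ m ∈ range n, (T b y m : ℂ) * w ^ m‖ ≤ ∑ m ∈ range n, |T b y m - τ| := by
    rw [hA]
    refine (norm_sum_le _ _).trans (sum_le_sum fun m _ => ?_)
    rw [norm_mul, hwp, mul_one, Complex.norm_real, Real.norm_eq_abs]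
  have h2 : ‖∑ m ∈ range n, (T b y m : ℂ) * w ^ m‖ ≤ ∑ m ∈ range n, T b y m := by
    refine (norm_sum_le _ _).trans (sum_le_sum fun m _ => ?_)
    rw [norm_mul, hwp, mul_one, Complex.norm_real, Real.norm_eq_abs,
      abs_of_pos (T_pos hb hy0 hy1 hirr m)]
  have h3 := T_abs_sum' hd0 hd hD
  have h4 := T_sum_le hb hy0 hy1 hirr n
  have h5 := R_eq hb hy0 hy1 n
  have h6 := T_le hb hy0 hy1 (b := b) n
  have h7 := T_pos hb hy0 hy1 hirr n
  have h8 := T_pos hb hy0 hy1 hirr 0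
  have hK : (0 : ℝ) ≤ K b y n := Nat.cast_nonneg _
  have h9 : ‖∑ m ∈ range (n + 1), (r b y m : ℂ) * w ^ m‖ ≤
      ((b : ℝ) - 1) * (∑ m ∈ range n, |T b y m - τ|) + b * ‖w - 1‖ * (∑ m ∈ range n, T b y m)
        + T b y 0 + T b y n := by
    rw [r_sum hb hy0 hy1 w n]
    have e1 : ‖((b : ℂ) - 1)‖ = (b : ℝ) - 1 := by
      have : ((b : ℂ) - 1) = (((b : ℝ) - 1 : ℝ) : ℂ) := by push_cast; ring
      rw [this, Complex.norm_real, Real.norm_eq_abs, abs_of_nonneg (by linarith)]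
    have e2 : ‖(T b y 0 : ℂ)‖ = T b y 0 := by
      rw [Complex.norm_real, Real.norm_eq_abs, abs_of_pos h8]
    have e3 : ‖(T b y n : ℂ) * w ^ n‖ = T b y n := by
      rw [norm_mul, hwp, mul_one, Complex.norm_real, Real.norm_eq_abs, abs_of_pos h7]
    have e4 : ‖((b : ℂ) - 1) * ∑ m ∈ range n, (T b y m : ℂ) * w ^ m‖
        ≤ ((b : ℝ) - 1) * (∑ m ∈ range n, |T b y m - τ|) := by
      rw [norm_mul, e1]
      exact mul_le_mul_of_nonneg_left h1 (by linarith)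
    have e5 : ‖(b : ℂ) * (w - 1) * ∑ m ∈ range n, (T b y m : ℂ) * w ^ m‖
        ≤ b * ‖w - 1‖ * (∑ m ∈ range n, T b y m) := by
      rw [norm_mul, norm_mul, Complex.norm_natCast]
      exact mul_le_mul_of_nonneg_left h2 (by positivity)
    calc _ ≤ ‖((b : ℂ) - 1) * ∑ m ∈ range n, (T b y m : ℂ) * w ^ m
          + (b : ℂ) * (w - 1) * ∑ m ∈ range n, (T b y m : ℂ) * w ^ m + T b y 0‖
          + ‖(T b y n : ℂ) * w ^ n‖ := norm_sub_le _ _
      _ ≤ ‖((b : ℂ) - 1) * ∑ m ∈ range n, (T b y m : ℂ) * w ^ m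
          + (b : ℂ) * (w - 1) * ∑ m ∈ range n, (T b y m : ℂ) * w ^ m‖ + ‖(T b y 0 : ℂ)‖
          + ‖(T b y n : ℂ) * w ^ n‖ := by gcongr; exact norm_add_le _ _
      _ ≤ ‖((b : ℂ) - 1) * ∑ m ∈ range n, (T b y m : ℂ) * w ^ m‖
          + ‖(b : ℂ) * (w - 1) * ∑ m ∈ range n, (T b y m : ℂ) * w ^ m‖ + ‖(T b y 0 : ℂ)‖
          + ‖(T b y n : ℂ) * w ^ n‖ := by gcongr; exact norm_add_le _ _
      _ ≤ _ := by rw [e2, e3]; gcongr
  have h10 : b * ‖w - 1‖ * (∑ m ∈ range n, T b y m) ≤ 26 * b * (K b y n + 1) := by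
    calc b * ‖w - 1‖ * (∑ m ∈ range n, T b y m) ≤ b * ‖w - 1‖ * (n * (K b y n + 1)) :=
          mul_le_mul_of_nonneg_left h4 (by positivity)
      _ = b * (K b y n + 1) * (‖w - 1‖ * n) := by ring
      _ ≤ b * (K b y n + 1) * 26 := mul_le_mul_of_nonneg_left hwd (by positivity)
      _ = _ := by ring
  have h11 : ((b : ℝ) - 1) * (∑ m ∈ range n, |T b y m - τ|) ≤
      ((b : ℝ) - 1) * (∑ m ∈ range n, T b y m - τ * n + 2 * D) :=
    mul_le_mul_of_nonneg_left h3 (by linarith)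
  unfold Er'
  nlinarith

include hb hy0 hy1 hirr hd0 hd hD in
lemma F_bound26 {θ : ℝ} (h0 : 0 < θ) (h1 : θ < 2 * Real.pi)
    (hθ : ∃ j : ℕ, θ * n = j * (2 * Real.pi)) (h2 : θ * n ≤ 26) (hn : 0 < n) :
    ‖F b y n (Complex.exp (Complex.I * (θ : ℂ)))‖ ^ 2 ≤ Er' b y τ D n := by
  set w : ℂ := Complex.exp (Complex.I * (θ : ℂ)) with hw
  have hw1 : ‖w‖ = 1 := by
    rw [hw, mul_comm]
    exact Complex.norm_exp_ofReal_mul_I θ
  have hwn : w ^ n = 1 := by
    obtain ⟨j, hj⟩ := hθ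
    rw [hw, ← Complex.exp_nat_mul, Complex.exp_eq_one_iff]
    refine ⟨j, ?_⟩
    have : ((θ * n : ℝ) : ℂ) = ((j * (2 * Real.pi) : ℝ) : ℂ) := by rw [hj]
    push_cast at this ⊢
    linear_combination Complex.I * this
  have hne : w ≠ 1 := by
    intro h
    rw [hw, Complex.exp_eq_one_iff] at h
    obtain ⟨m, hm⟩ := h
    have h3 : θ = m * (2 * Real.pi) := by
      have h4 : Complex.I * (θ : ℂ) = Complex.I * ((m * (2 * Real.pi) : ℝ) : ℂ) := by
        rw [hm]; push_cast; ring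
      have h5 := mul_left_cancel₀ Complex.I_ne_zero h4
      exact_mod_cast h5
    have hpi := Real.pi_pos
    have h6 : (0 : ℝ) < m := by
      by_contra hcon
      have : (m : ℝ) * (2 * Real.pi) ≤ 0 := by nlinarith
      linarith
    have h7 : (m : ℝ) < 1 := by
      by_contra hcon
      have : 1 * (2 * Real.pi) ≤ (m : ℝ) * (2 * Real.pi) := by nlinarith
      linarith
    have h8 : (0 : ℤ) < m := by exact_mod_cast h6
    have h9 : m < (1 : ℤ) := by exact_mod_cast h7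
    omega
  have hdd : ‖w - 1‖ * n ≤ 26 := by
    have h3 : ‖w - 1‖ ≤ θ := by
      have := Real.norm_exp_I_mul_ofReal_sub_one_le (x := θ)
      rw [Real.norm_eq_abs, abs_of_pos h0] at this
      exact this
    have h4 : (0 : ℝ) ≤ n := Nat.cast_nonneg _
    nlinarith
  have h3 := norm_r_sum26 hb hy0 hy1 hirr hd0 hd hD hn hw1 hwn hne hdd
  have h4 := F_sq (b := b) (y := y) n hw1
  have h5 : (K b y n : ℝ) ^ 2 = R b y n + Q b y n := by exact_mod_cast K_sq (b := b) (y := y) n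
  linarith

/-- the digits as real numbers -/
noncomputable def xa (b : ℕ) (y : ℝ) (i : ℕ) : ℝ := (x b y i : ℝ)

lemma Ka_xa (n : ℕ) : Ka (xa b y) n = K b y n := by
  unfold Ka xa K; push_cast; rfl

lemma Fa_xa (n : ℕ) (w : ℂ) : Fa (xa b y) n w = F b y n w := by
  unfold Fa xa F
  refine sum_congr rfl fun i _ => by push_cast; rfl

lemma ra_xa (m : ℕ) : ra (xa b y) m = r b y m := by
  unfold ra xa r; push_cast; rfl

include hb hy0 hy1 in
/-- summation by parts -/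
lemma by_parts (ω : ℕ → ℝ) (N : ℕ) :
    ∑ m ∈ range (N + 1), (r b y m : ℝ) * ω m =
      ∑ z ∈ range N, T b y z * (b * ω (z + 1) - ω z) + T b y 0 * ω 0 - T b y N * ω N := by
  induction N with
  | zero => simp [r_zero hy0 hy1]
  | succ N ih =>
    rw [sum_range_succ, ih, sum_range_succ _ N]
    have h1 := T_succ hb hy0 hy1 (b := b) N
    have h2 : (r b y (N + 1) : ℝ) = b * T b y N - T b y (N + 1) := by linarith
    rw [h2]
    ring

end

section
variable {b : ℕ} {y : ℝ} (hb : 2 ≤ b) (hy0 : 0 < y) (hy1 : y < 1) (hirr : Irrational y)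
  {τ D : ℝ} {d : ℕ → ℝ} (hd0 : ∀ m, 0 ≤ d m) (hd : ∀ m, τ - d m ≤ T b y m)

include hb hy0 hy1 hirr hd0 hd in
lemma H2_dig {L : ℕ} (hL : 0 < L) (hD : ∑ m ∈ range (64 * L), d m ≤ D) :
    ((b : ℝ) - 1) * τ * ∑ z ∈ range (64 * L), ip L uu (z + 1) -
      (((b : ℝ) - 1) * D + 65 * (K b y (64 * L) + 1)) ≤
      ∑ m ∈ range (64 * L + 1), (r b y m : ℝ) * ip L uu m := by
  have hbR : (2 : ℝ) ≤ b := by exact_mod_cast hb
  have hLR : (0 : ℝ) < L := by exact_mod_cast hL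
  have hK : (0 : ℝ) ≤ K b y (64 * L) := Nat.cast_nonneg _
  rw [by_parts hb hy0 hy1]
  have h1 : ∀ z ∈ range (64 * L), ((b : ℝ) - 1) * (τ * ip L uu (z + 1)) - ((b : ℝ) - 1) * d z -
      T b y z * (1 / L) ≤ T b y z * (b * ip L uu (z + 1) - ip L uu z) := by
    intro z hz
    have hz' := mem_range.mp hz
    have a1 := ip_lip hL hz'
    have a2 := ip_nonneg hL (z + 1)
    have a3 := ip_le_one hL (x := z + 1) (by omega)
    have a4 := T_pos hb hy0 hy1 hirr z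
    have a5 := hd z
    have a6 := hd0 z
    rw [abs_le] at a1
    have e : T b y z * (b * ip L uu (z + 1) - ip L uu z) =
        ((b : ℝ) - 1) * (T b y z * ip L uu (z + 1)) +
          T b y z * (ip L uu (z + 1) - ip L uu z) := by ring
    rw [e]
    have b1 : T b y z * (-(1 / L)) ≤ T b y z * (ip L uu (z + 1) - ip L uu z) :=
      mul_le_mul_of_nonneg_left a1.1 a4.le
    have b2 : (τ - d z) * ip L uu (z + 1) ≤ T b y z * ip L uu (z + 1) :=
      mul_le_mul_of_nonneg_right a5 a2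
    have b3 : d z * ip L uu (z + 1) ≤ d z := by nlinarith
    have b4 : ((b : ℝ) - 1) * (τ * ip L uu (z + 1) - d z) ≤
        ((b : ℝ) - 1) * (T b y z * ip L uu (z + 1)) :=
      mul_le_mul_of_nonneg_left (by linarith) (by linarith)
    linarith
  have h2 := sum_le_sum h1
  rw [sum_sub_distrib, sum_sub_distrib, ← mul_sum, ← mul_sum, ← mul_sum, ← sum_mul] at h2
  have h3 := T_sum_le hb hy0 hy1 hirr (64 * L)
  have h4 := T_le hb hy0 hy1 (b := b) (64 * L)
  have h5 := T_pos hb hy0 hy1 hirr (64 * L)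
  have h6 := T_pos hb hy0 hy1 hirr 0
  have h7 := ip_nonneg hL 0
  have h8 := ip_nonneg hL (64 * L)
  have h9 := ip_le_one hL (x := 64 * L) (le_refl _)
  have c1 : (∑ i ∈ range (64 * L), T b y i) * (1 / L) ≤ 64 * (K b y (64 * L) + 1) := by
    have := mul_le_mul_of_nonneg_right h3 (by positivity : (0 : ℝ) ≤ 1 / L)
    refine this.trans (le_of_eq ?_)
    push_cast
    field_simp
  have c2 : T b y (64 * L) * ip L uu (64 * L) ≤ K b y (64 * L) + 1 := by nlinarith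
  have c3 : 0 ≤ T b y 0 * ip L uu 0 := mul_nonneg h6.le h7
  have c4 := mul_le_mul_of_nonneg_left hD (by linarith : (0 : ℝ) ≤ (b : ℝ) - 1)
  rw [← mul_assoc] at h2
  linarith

include hb hy0 hy1 hirr hd0 hd in
/-- the main inequality for multiples of `64` -/
theorem main64 {L : ℕ} (hL : 0 < L) (hτ : 0 ≤ τ) (hD : ∑ m ∈ range (64 * L), d m ≤ D) :
    11 / 10 * (((b : ℝ) - 1) * τ) * (64 * L) ≤ (K b y (64 * L) : ℝ) ^ 2 +
      2 * (2 * ((b : ℝ) - 1) * D + (26 * b + 65) * (K b y (64 * L) + 1)) +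
        37 * (((b : ℝ) - 1) * τ) := by
  have hbR : (2 : ℝ) ≤ b := by exact_mod_cast hb
  have hLR : (1 : ℝ) ≤ L := by exact_mod_cast hL
  have hK : (0 : ℝ) ≤ K b y (64 * L) := Nat.cast_nonneg _
  have hD0 : 0 ≤ D := (sum_nonneg fun m _ => hd0 m).trans hD
  have hbD : 0 ≤ ((b : ℝ) - 1) * D := mul_nonneg (by linarith) hD0
  have hpi := Real.pi_pos
  have hpi2 := Real.pi_lt_d2
  have h := core hL (a := xa b y) (fun i => by unfold xa; positivity)
    (c := ((b : ℝ) - 1) * τ)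
    (E := 2 * ((b : ℝ) - 1) * D + (26 * b + 65) * (K b y (64 * L) + 1))
    (mul_nonneg (by linarith) hτ)
    (by
      have h1 : (0 : ℝ) ≤ (26 * b + 65) * (K b y (64 * L) + 1) := by positivity
      linarith) ?_ ?_
  · rw [Ka_xa] at h
    exact h
  · intro k hk
    rw [Ka_xa, Fa_xa]
    have hk' : (k : ℝ) ≤ 3 := by exact_mod_cast (by omega : k ≤ 3)
    have h1 := F_bound26 (n := 64 * L) hb hy0 hy1 hirr hd0 hd hD (θ := fq L k) ?_ ?_ ⟨k + 1, ?_⟩ ?_
      (by omega)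
    · refine h1.trans ?_
      unfold Er'
      push_cast
      nlinarith
    · unfold fq; positivity
    · unfold fq
      rw [div_lt_iff₀ (by linarith)]
      nlinarith
    · unfold fq
      push_cast
      field_simp
      ring
    · unfold fq
      have e : Real.pi / 32 * ((k : ℝ) + 1) / L * ((64 * L : ℕ) : ℝ) = 2 * Real.pi * (k + 1) := by
        push_cast; field_simp; ring
      rw [e]
      nlinarith
  · have h2 := H2_dig hb hy0 hy1 hirr hd0 hd hL hD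
    simp only [ra_xa]
    refine le_trans ?_ h2
    nlinarith

include hb hy0 hy1 hirr hd0 hd in
/-- the main inequality -/
theorem main11 (hτ : 0 ≤ τ) {n : ℕ} (hD : ∑ m ∈ range n, d m ≤ D) :
    11 / 10 * (((b : ℝ) - 1) * τ) * n ≤ (K b y n : ℝ) ^ 2 +
      2 * (2 * ((b : ℝ) - 1) * D + (26 * b + 65) * (K b y n + 1)) +
        110 * (((b : ℝ) - 1) * τ) := by
  have hbR : (2 : ℝ) ≤ b := by exact_mod_cast hb
  have hK : (0 : ℝ) ≤ K b y n := Nat.cast_nonneg _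
  have hD0 : 0 ≤ D := (sum_nonneg fun m _ => hd0 m).trans hD
  have hbD : 0 ≤ ((b : ℝ) - 1) * D := mul_nonneg (by linarith) hD0
  have hbτ : 0 ≤ ((b : ℝ) - 1) * τ := mul_nonneg (by linarith) hτ
  have hn := Nat.div_add_mod n 64
  have hm := Nat.mod_lt n (by norm_num : 0 < 64)
  have hnR : (n : ℝ) ≤ 64 * ((n / 64 : ℕ) : ℝ) + 63 := by
    exact_mod_cast (by omega : n ≤ 64 * (n / 64) + 63)
  rcases Nat.eq_zero_or_pos (n / 64) with h0 | h0
  · rw [h0] at hnR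
    have h1 : ((b : ℝ) - 1) * τ * n ≤ ((b : ℝ) - 1) * τ * 63 := by
      apply mul_le_mul_of_nonneg_left _ hbτ
      simpa using hnR
    have h2 : (0 : ℝ) ≤ (26 * b + 65) * (K b y n + 1) := by positivity
    nlinarith
  · have hle : 64 * (n / 64) ≤ n := by omega
    have hD' : ∑ m ∈ range (64 * (n / 64)), d m ≤ D :=
      (sum_le_sum_of_subset_of_nonneg (range_mono hle) fun i _ _ => hd0 i).trans hD
    have h1 := main64 hb hy0 hy1 hirr hd0 hd h0 hτ hD'
    have h2 : (K b y (64 * (n / 64)) : ℝ) ≤ K b y n := by exact_mod_cast K_mono hle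
    have h3 : (0 : ℝ) ≤ K b y (64 * (n / 64)) := Nat.cast_nonneg _
    have h4 : (K b y (64 * (n / 64)) : ℝ) ^ 2 ≤ (K b y n : ℝ) ^ 2 := pow_le_pow_left₀ h3 h2 2
    have h5 : (26 * (b : ℝ) + 65) * (K b y (64 * (n / 64)) + 1) ≤
        (26 * b + 65) * (K b y n + 1) := by gcongr
    have h6 : ((b : ℝ) - 1) * τ * n ≤ ((b : ℝ) - 1) * τ * (64 * ((n / 64 : ℕ) : ℝ) + 63) :=
      mul_le_mul_of_nonneg_left hnR hbτ
    nlinarith

end

end Pool.Agent.U278.SD
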