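import Pool.Agent.U278.SD.Ker
import Pool.Agent.H394R2.Ones2

/-!
# Piecewise linear interpolation
-/

set_option autoImplicit false

open Real Finset

namespace Pool.Agent.U278.SD

/-- the fractional part of `x / L` -/
noncomputable def fr (L x : ℕ) : ℝ := ((x % L : ℕ) : ℝ) / L

/-- piecewise linear interpolation of `G` at `x / L` -/
noncomputable def ip (L : ℕ) (G : ℕ → ℝ) (x : ℕ) : ℝ :=
  (1 - fr L x) * G (x / L) + fr L x * G (x / L + 1)

/-- bilinear interpolation of `F` at `(x / L, y / L)` -/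
noncomputable def ip2 (L : ℕ) (F : ℕ → ℕ → ℝ) (x y : ℕ) : ℝ :=
  (1 - fr L x) * (1 - fr L y) * F (x / L) (y / L) +
  (1 - fr L x) * fr L y * F (x / L) (y / L + 1) +
  fr L x * (1 - fr L y) * F (x / L + 1) (y / L) +
  fr L x * fr L y * F (x / L + 1) (y / L + 1)

lemma fr_nonneg (L x : ℕ) : 0 ≤ fr L x := by unfold fr; positivity

lemma fr_lt {L : ℕ} (hL : 0 < L) (x : ℕ) : fr L x < 1 := by
  unfold fr
  rw [div_lt_one (by exact_mod_cast hL)]
  exact_mod_cast Nat.mod_lt x hL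

lemma cell {L : ℕ} (hL : 0 < L) {x : ℕ} (hx : x ≤ 64 * L) :
    x / L ≤ 64 ∧ (fr L x = 0 ∨ x / L + 1 ≤ 64) := by
  have h1 : x / L ≤ 64 := by
    calc x / L ≤ 64 * L / L := Nat.div_le_div_right hx
      _ = 64 := Nat.mul_div_cancel _ hL
  refine ⟨h1, ?_⟩
  by_cases h : x / L + 1 ≤ 64
  · exact Or.inr h
  · left
    have h2 : x / L = 64 := by omega
    have h3 := Nat.div_add_mod x L
    rw [h2] at h3
    have h4 : x % L = 0 := by omega
    unfold fr
    rw [h4]; simp

lemma ip2_nonneg {L : ℕ} (hL : 0 < L) {F : ℕ → ℕ → ℝ} (hF : ∀ i j, i ≤ 64 → j ≤ 64 → 0 ≤ F i j)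
    {x y : ℕ} (hx : x ≤ 64 * L) (hy : y ≤ 64 * L) : 0 ≤ ip2 L F x y := by
  obtain ⟨h1, h2⟩ := cell hL hx
  obtain ⟨h3, h4⟩ := cell hL hy
  have s0 := fr_nonneg L x
  have s1 := fr_lt hL x
  have t0 := fr_nonneg L y
  have t1 := fr_lt hL y
  have a1 : 0 ≤ (1 - fr L x) * (1 - fr L y) * F (x / L) (y / L) :=
    mul_nonneg (mul_nonneg (by linarith) (by linarith)) (hF _ _ h1 h3)
  have a2 : 0 ≤ (1 - fr L x) * fr L y * F (x / L) (y / L + 1) := by
    rcases h4 with h | h
    · rw [h]; simp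
    · exact mul_nonneg (mul_nonneg (by linarith) t0) (hF _ _ h1 h)
  have a3 : 0 ≤ fr L x * (1 - fr L y) * F (x / L + 1) (y / L) := by
    rcases h2 with h | h
    · rw [h]; simp
    · exact mul_nonneg (mul_nonneg s0 (by linarith)) (hF _ _ h h3)
  have a4 : 0 ≤ fr L x * fr L y * F (x / L + 1) (y / L + 1) := by
    rcases h2 with h | h
    · rw [h]; simp
    · rcases h4 with h' | h'
      · rw [h']; simp
      · exact mul_nonneg (mul_nonneg s0 t0) (hF _ _ h h')
  unfold ip2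
  linarith

lemma ip2_mul (L : ℕ) (g : ℕ → ℝ) (x y : ℕ) :
    ip2 L (fun i j => g i * g j) x y = ip L g x * ip L g y := by
  unfold ip2 ip; ring

lemma ip2_ker (L x y : ℕ) : ip2 L ker x y =
    10092 / 10000 - ip2 L (fun i j => ww (i + j)) x y -
      ∑ k ∈ range 4, vk k * (1 - (ip L (cc k) x * ip L (cc k) y + ip L (ss k) x * ip L (ss k) y)) -
      ∑ b ∈ range 8, ip L (gg b) x * ip L (gg b) y := by
  unfold ip2 ip ker
  simp only [sum_range_succ, sum_range_zero]
  ring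

/-! ### the weights of the sums -/

lemma w_cell {s t w0 w1 w2 u0 u1 : ℝ} (hs : 0 ≤ s) (ht : 0 ≤ t) (hst : s + t ≤ 1)
    (h0 : u0 ≤ w0) (h1 : u1 ≤ w1) (h2 : 4 * u1 ≤ w0 + 2 * w1 + w2) :
    (1 - (s + t)) * u0 + (s + t) * u1 ≤
      (1 - s) * (1 - t) * w0 + ((1 - s) * t + s * (1 - t)) * w1 + s * t * w2 := by
  have e : (1 - s) * (1 - t) * w0 + ((1 - s) * t + s * (1 - t)) * w1 + s * t * w2 =
      (1 - (s + t)) * w0 + (s + t) * w1 + s * t * (w0 - 2 * w1 + w2) := by ring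
  rw [e]
  have a1 : (1 - (s + t)) * u0 ≤ (1 - (s + t)) * w0 :=
    mul_le_mul_of_nonneg_left h0 (by linarith)
  have hst0 : 0 ≤ s * t := mul_nonneg hs ht
  by_cases hD : 0 ≤ w0 - 2 * w1 + w2
  · have a2 : (s + t) * u1 ≤ (s + t) * w1 := mul_le_mul_of_nonneg_left h1 (by linarith)
    have a3 := mul_nonneg hst0 hD
    linarith
  · push Not at hD
    have a2 : s * t ≤ (s + t) / 4 := by nlinarith [sq_nonneg (s - t)]
    have a3 : (s + t) / 4 * (w0 - 2 * w1 + w2) ≤ s * t * (w0 - 2 * w1 + w2) :=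
      mul_le_mul_of_nonpos_right a2 hD.le
    have a4 : (s + t) * (4 * u1) ≤ (s + t) * (w0 + 2 * w1 + w2) :=
      mul_le_mul_of_nonneg_left h2 (by linarith)
    linarith

lemma chkU_all : uu 0 ≤ ww 0 ∧ ∀ k, k < 64 → uu (k + 1) ≤ ww (k + 1) ∧
    4 * uu (k + 1) ≤ ww k + 2 * ww (k + 1) + ww (k + 2) ∧ |uu (k + 1) - uu k| ≤ 1 ∧
    uu (k + 1) ≤ 1 ∧ uu k ≤ 1 := by
  have h := chkU_true
  unfold chkU at h
  rw [Bool.and_eq_true, decide_eq_true_eq, List.all_eq_true] at h
  obtain ⟨h0, h⟩ := h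
  refine ⟨?_, fun k hk => ?_⟩
  · unfold uu ww
    have : (ut 0 : ℝ) ≤ wt 0 := by exact_mod_cast h0
    gcongr
  · have h1 := h k (List.mem_range.mpr hk)
    simp only [Bool.and_eq_true, decide_eq_true_eq] at h1
    obtain ⟨⟨⟨⟨⟨a1, a2⟩, a3⟩, a4⟩, a5⟩, a6⟩ := h1
    have b1 : (ut (k + 1) : ℝ) ≤ wt (k + 1) := by exact_mod_cast a1
    have b2 : 4 * (ut (k + 1) : ℝ) ≤ wt k + 2 * wt (k + 1) + wt (k + 2) := by exact_mod_cast a2
    have b3 : (ut k : ℝ) ≤ ut (k + 1) + 1000000 := by exact_mod_cast a3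
    have b4 : (ut (k + 1) : ℝ) ≤ ut k + 1000000 := by exact_mod_cast a4
    have b5 : (ut (k + 1) : ℝ) ≤ 1000000 := by exact_mod_cast a5
    have b6 : (ut k : ℝ) ≤ 1000000 := by exact_mod_cast a6
    unfold uu ww
    refine ⟨by gcongr, by linarith, ?_, by linarith, by linarith⟩
    rw [abs_le]
    constructor <;> linarith

lemma uu_le_ww (k : ℕ) (hk : k ≤ 64) : uu k ≤ ww k := by
  rcases k with _ | k
  · exact chkU_all.1
  · exact (chkU_all.2 k (by omega)).1

theorem ip_le_ip2 {L : ℕ} (hL : 0 < L) {x y : ℕ} (hxy : x + y ≤ 64 * L) :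
    ip L uu (x + y) ≤ ip2 L (fun i j => ww (i + j)) x y := by
  have hLR : (0 : ℝ) < L := by exact_mod_cast hL
  have s0 := fr_nonneg L x
  have s1 := fr_lt hL x
  have t0 := fr_nonneg L y
  have t1 := fr_lt hL y
  obtain ⟨c1, c2⟩ := cell hL hxy
  have e2 : ip2 L (fun i j => ww (i + j)) x y =
      (1 - fr L x) * (1 - fr L y) * ww (x / L + y / L) +
        ((1 - fr L x) * fr L y + fr L x * (1 - fr L y)) * ww (x / L + y / L + 1) +
        fr L x * fr L y * ww (x / L + y / L + 2) := by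
    unfold ip2
    beta_reduce
    rw [show x / L + (y / L + 1) = x / L + y / L + 1 by ring,
      show x / L + 1 + y / L = x / L + y / L + 1 by ring,
      show x / L + 1 + (y / L + 1) = x / L + y / L + 2 by ring]
    ring
  rw [e2]
  by_cases hc : x % L + y % L < L
  · have d1 : (x + y) / L = x / L + y / L := by
      rw [Nat.add_div hL, if_neg (by omega), add_zero]
    have d2 : fr L (x + y) = fr L x + fr L y := by
      unfold fr
      rw [Nat.add_mod, Nat.mod_eq_of_lt hc]; push_cast; ring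
    unfold ip
    rw [d1] at c1 c2 ⊢
    rw [d2] at c2 ⊢
    rcases c2 with h | h
    · have hx0 : fr L x = 0 := by linarith
      have hy0 : fr L y = 0 := by linarith
      rw [hx0, hy0]
      have := uu_le_ww (x / L + y / L) c1
      simpa using this
    · have hst : fr L x + fr L y ≤ 1 := by
        rw [← d2]; exact (fr_lt hL _).le
      exact w_cell s0 t0 hst (uu_le_ww _ c1) (uu_le_ww _ h)
        (chkU_all.2 _ (by omega)).2.1
  · push Not at hc
    have d1 : (x + y) / L = x / L + y / L + 1 := by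
      rw [Nat.add_div hL, if_pos (by omega)]
    have d2 : fr L (x + y) = fr L x + fr L y - 1 := by
      unfold fr
      have h1 : (x + y) % L = x % L + y % L - L := by
        have hx' := Nat.mod_lt x hL
        have hy' := Nat.mod_lt y hL
        rw [Nat.add_mod, Nat.mod_eq_sub_mod hc, Nat.mod_eq_of_lt (by omega)]
      rw [h1, Nat.cast_sub hc]; push_cast
      field_simp
    have d3 : 0 ≤ fr L x + fr L y - 1 := by rw [← d2]; exact fr_nonneg _ _
    unfold ip
    rw [d1] at c1 c2 ⊢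
    rw [d2] at c2 ⊢
    have hc1 := (chkU_all.2 (x / L + y / L) (by omega)).1
    have hc2 := (chkU_all.2 (x / L + y / L) (by omega)).2.1
    have hkey : ∀ u2 : ℝ, u2 ≤ ww (x / L + y / L + 2) →
        (1 - (fr L x + fr L y - 1)) * uu (x / L + y / L + 1) + (fr L x + fr L y - 1) * u2 ≤
        (1 - fr L x) * (1 - fr L y) * ww (x / L + y / L) +
        ((1 - fr L x) * fr L y + fr L x * (1 - fr L y)) * ww (x / L + y / L + 1) +
        fr L x * fr L y * ww (x / L + y / L + 2) := by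
      intro u2 hu2
      have := w_cell (s := 1 - fr L x) (t := 1 - fr L y) (w0 := ww (x / L + y / L + 2))
        (w1 := ww (x / L + y / L + 1)) (w2 := ww (x / L + y / L)) (u0 := u2)
        (u1 := uu (x / L + y / L + 1)) (by linarith) (by linarith) (by linarith) hu2 hc1
        (by linarith)
      nlinarith [this]
    rcases c2 with h | h
    · rw [h] at hkey ⊢
      have := hkey _ (le_refl _)
      simpa using this
    · exact hkey _ (uu_le_ww _ (by omega))

/-- sums over pairs -/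
theorem pairs_ge {L : ℕ} (hL : 0 < L) {a : ℕ → ℝ} (ha : ∀ i, 0 ≤ a i) :
    ∑ m ∈ range (64 * L + 1), (∑ p ∈ antidiagonal m, a p.1 * a p.2) * ip L uu m ≤
      ∑ x ∈ range (64 * L + 1), ∑ y ∈ range (64 * L + 1),
        a x * a y * ip2 L (fun i j => ww (i + j)) x y := by
  rw [← sum_product' (range (64 * L + 1)) (range (64 * L + 1))
    (fun x y => a x * a y * ip2 L (fun i j => ww (i + j)) x y)]
  rw [Pool.Agent.H394R2.Ones.pair_sum (64 * L)
    (fun x y => a x * a y * ip2 L (fun i j => ww (i + j)) x y)]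
  have h1 : ∑ m ∈ range (64 * L + 1), (∑ p ∈ antidiagonal m, a p.1 * a p.2) * ip L uu m ≤
      ∑ m ∈ range (64 * L + 1), ∑ p ∈ antidiagonal m,
        a p.1 * a p.2 * ip2 L (fun i j => ww (i + j)) p.1 p.2 := by
    refine sum_le_sum fun m hm => ?_
    rw [sum_mul]
    refine sum_le_sum fun p hp => ?_
    rw [HasAntidiagonal.mem_antidiagonal] at hp
    have hm' := mem_range.mp hm
    refine mul_le_mul_of_nonneg_left ?_ (mul_nonneg (ha _) (ha _))
    rw [← hp]
    exact ip_le_ip2 hL (by omega)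
  have h2 : 0 ≤ ∑ p ∈ (range (64 * L + 1) ×ˢ range (64 * L + 1)).filter
      (fun p => ¬ p.1 + p.2 ≤ 64 * L), a p.1 * a p.2 * ip2 L (fun i j => ww (i + j)) p.1 p.2 := by
    refine sum_nonneg fun p hp => ?_
    rw [mem_filter, mem_product, mem_range, mem_range] at hp
    refine mul_nonneg (mul_nonneg (ha _) (ha _)) ?_
    exact ip2_nonneg hL (fun i j _ _ => ww_nonneg _) (by omega) (by omega)
  linarith

/-! ### the interpolated weights -/

lemma ip_eq {L : ℕ} (hL : 0 < L) (G : ℕ → ℝ) (j s : ℕ) (hs : s ≤ L) :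
    ip L G (j * L + s) = (1 - (s : ℝ) / L) * G j + (s : ℝ) / L * G (j + 1) := by
  have hLR : (L : ℝ) ≠ 0 := by exact_mod_cast hL.ne'
  rcases lt_or_eq_of_le hs with h | h
  · have d1 : (j * L + s) / L = j := by
      rw [Nat.add_comm, Nat.add_mul_div_right _ _ hL, Nat.div_eq_of_lt h, zero_add]
    have d2 : (j * L + s) % L = s := by
      rw [Nat.add_comm, Nat.add_mul_mod_self_right, Nat.mod_eq_of_lt h]
    unfold ip fr
    rw [d1, d2]
  · subst h
    have d1 : (j * s + s) / s = j + 1 := by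
      rw [show j * s + s = (j + 1) * s by ring, Nat.mul_div_cancel _ hL]
    have d2 : (j * s + s) % s = 0 := by
      rw [show j * s + s = (j + 1) * s by ring, Nat.mul_mod_left]
    unfold ip fr
    rw [d1, d2, div_self hLR]
    simp

lemma uu_le_one (k : ℕ) (hk : k ≤ 64) : uu k ≤ 1 := by
  rcases k with _ | k
  · exact (chkU_all.2 0 (by norm_num)).2.2.2.2
  · exact (chkU_all.2 k (by omega)).2.2.2.1

lemma ip_nonneg {L : ℕ} (hL : 0 < L) (x : ℕ) : 0 ≤ ip L uu x := by
  unfold ip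
  have := fr_nonneg L x
  have := fr_lt hL x
  have := uu_nonneg (x / L)
  have := uu_nonneg (x / L + 1)
  apply add_nonneg <;> apply mul_nonneg <;> linarith

lemma ip_le_one {L : ℕ} (hL : 0 < L) {x : ℕ} (hx : x ≤ 64 * L) : ip L uu x ≤ 1 := by
  unfold ip
  have h0 := fr_nonneg L x
  have h1 := fr_lt hL x
  obtain ⟨c1, c2⟩ := cell hL hx
  have h2 := uu_le_one _ c1
  rcases c2 with h | h
  · rw [h]; simpa using h2
  · have h3 := uu_le_one _ h
    nlinarith

lemma split_cell {L : ℕ} (hL : 0 < L) {z : ℕ} (hz : z < 64 * L) :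
    ∃ j s, j < 64 ∧ s + 1 ≤ L ∧ z = j * L + s := by
  refine ⟨z / L, z % L, ?_, Nat.mod_lt z hL, ?_⟩
  · exact Nat.div_lt_of_lt_mul (by rw [mul_comm]; exact hz)
  · rw [mul_comm]; exact (Nat.div_add_mod z L).symm

lemma ip_lip {L : ℕ} (hL : 0 < L) {z : ℕ} (hz : z < 64 * L) :
    |ip L uu (z + 1) - ip L uu z| ≤ 1 / L := by
  have hLR : (0 : ℝ) < L := by exact_mod_cast hL
  obtain ⟨j, s, hj, hs, rfl⟩ := split_cell hL hz
  rw [add_assoc, ip_eq hL uu j (s + 1) hs, ip_eq hL uu j s (by omega)]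
  have h := (chkU_all.2 j hj).2.2.1
  have e : (1 - ((s + 1 : ℕ) : ℝ) / L) * uu j + ((s + 1 : ℕ) : ℝ) / L * uu (j + 1) -
      ((1 - (s : ℝ) / L) * uu j + (s : ℝ) / L * uu (j + 1)) = (uu (j + 1) - uu j) / L := by
    push_cast; field_simp; ring
  rw [e, abs_div, abs_of_pos hLR]
  gcongr

lemma ip_block {L : ℕ} (hL : 0 < L) (j : ℕ) :
    ((L : ℝ) - 1) / 2 * (uu j + uu (j + 1)) ≤ ∑ s ∈ range L, ip L uu (j * L + s + 1) := by
  have hLR : (0 : ℝ) < L := by exact_mod_cast hL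
  have h1 : ∑ s ∈ range L, ip L uu (j * L + s + 1) =
      ∑ s ∈ range L, (uu j + ((s : ℝ) + 1) * ((uu (j + 1) - uu j) / L)) := by
    refine sum_congr rfl fun s hs => ?_
    have hs' := mem_range.mp hs
    rw [add_assoc, ip_eq hL uu j (s + 1) (by omega)]
    push_cast; ring
  rw [h1, sum_add_distrib, ← sum_mul, sum_add_distrib]
  simp only [sum_const, card_range, nsmul_eq_mul, mul_one]
  have h2 : ∑ s ∈ range L, (s : ℝ) = (L : ℝ) * (L - 1) / 2 := by
    have := Finset.sum_range_id_mul_two L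
    have h3 : ((∑ i ∈ range L, i : ℕ) : ℝ) * 2 = L * ((L - 1 : ℕ) : ℝ) := by exact_mod_cast this
    rw [Nat.cast_sub hL] at h3
    push_cast at h3
    linarith
  rw [h2]
  have e : (L : ℝ) * uu j + ((L : ℝ) * (L - 1) / 2 + L) * ((uu (j + 1) - uu j) / L) =
      ((L : ℝ) - 1) / 2 * (uu j + uu (j + 1)) + uu (j + 1) := by
    field_simp; ring
  rw [e]
  linarith [uu_nonneg (j + 1)]

lemma ip_sum_aux {L : ℕ} (hL : 0 < L) (J : ℕ) :
    ((L : ℝ) - 1) / 2 * ∑ j ∈ range J, (uu j + uu (j + 1)) ≤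
      ∑ z ∈ range (J * L), ip L uu (z + 1) := by
  induction J with
  | zero => simp
  | succ J ih =>
    rw [show (J + 1) * L = J * L + L by ring, sum_range_succ, Finset.sum_range_add, mul_add]
    exact add_le_add ih (ip_block hL J)

lemma uu_sum : ∑ j ∈ range 64, (uu j + uu (j + 1)) = 72989275 / 10 ^ 6 := by
  have h : ∑ j ∈ range 64, (ut j + ut (j + 1)) = 72989275 := by decide +kernel
  have h2 : ∑ j ∈ range 64, ((ut j : ℝ) + ut (j + 1)) = 72989275 := by exact_mod_cast h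
  unfold uu
  rw [← h2, sum_div]
  refine sum_congr rfl fun j _ => by ring

theorem ip_sum {L : ℕ} (hL : 0 < L) :
    ((L : ℝ) - 1) * (72989275 / (2 * 10 ^ 6)) ≤ ∑ z ∈ range (64 * L), ip L uu (z + 1) := by
  have h := ip_sum_aux hL 64
  rw [uu_sum] at h
  linarith

end Pool.Agent.U278.SD
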