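import Pool.Agent.U278.SD.Hat

/-!
# The error of the interpolation of the characters
-/

set_option autoImplicit false

open Real Finset

namespace Pool.Agent.U278.SD

/-- bounds for the errors -/
noncomputable def ek (k : ℕ) : ℝ :=
  match k with
  | 0 => 124 / 100000 | 1 => 506 / 100000 | 2 => 1165 / 100000 | 3 => 2117 / 100000 | _ => 0

lemma ek_nonneg (k : ℕ) : 0 ≤ ek k := by
  unfold ek
  split <;> norm_num

lemma sin_dev {φ u : ℝ} (h0 : 0 < φ) (h1 : φ ≤ 1) (hu0 : 0 ≤ u) (hu1 : u ≤ 1) :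
    |u * sin φ - sin (φ * u)| ≤ φ ^ 3 / 4 := by
  have a1 : φ - φ ^ 3 / 4 < sin φ := by
    have := Real.sin_gt_sub_cube h0
    have h3 : 0 < φ ^ 3 := by positivity
    linarith
  have a2 := Real.sin_lt h0
  have h3 : 0 < φ ^ 3 := by positivity
  rcases eq_or_lt_of_le hu0 with h | h
  · rw [← h]; simp; positivity
  · have hp : 0 < φ * u := mul_pos h0 h
    have b1 : φ * u - (φ * u) ^ 3 / 4 < sin (φ * u) := by
      have := Real.sin_gt_sub_cube hp
      have h3 : 0 < (φ * u) ^ 3 := by positivity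
      linarith
    have b2 := Real.sin_lt hp
    have b3 : (φ * u) ^ 3 ≤ φ ^ 3 := by
      apply pow_le_pow_left₀ hp.le
      nlinarith
    have b4 : u * (φ - φ ^ 3 / 4) ≤ u * sin φ := mul_le_mul_of_nonneg_left a1.le hu0
    have b5 : u * sin φ ≤ u * φ := mul_le_mul_of_nonneg_left a2.le hu0
    have b6 : u * (φ ^ 3 / 4) ≤ φ ^ 3 / 4 := by nlinarith
    rw [abs_le]
    constructor <;> nlinarith

lemma sin_dev' {φ u : ℝ} (h0 : 0 < φ) (h1 : φ ≤ 1) (hu : |u| ≤ 1) :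
    |u * sin φ - sin (φ * u)| ≤ φ ^ 3 / 4 := by
  rcases le_or_gt 0 u with h | h
  · exact sin_dev h0 h1 h (by rwa [abs_of_nonneg h] at hu)
  · have h2 := sin_dev (u := -u) h0 h1 (by linarith) (by rwa [abs_of_neg h] at hu)
    have e : -u * sin φ - sin (φ * -u) = -(u * sin φ - sin (φ * u)) := by
      rw [show φ * -u = -(φ * u) by ring, Real.sin_neg]; ring
    rwa [e, abs_neg] at h2

lemma cos_dev {φ u : ℝ} (h0 : 0 < φ) (h1 : φ ≤ 1) (hu : |u| ≤ 1) :
    |cos φ - cos (φ * u)| ≤ φ ^ 2 / 2 := by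
  have a1 := Real.one_sub_sq_div_two_le_cos (x := φ)
  have a2 := Real.cos_le_one (φ * u)
  have a3 : cos φ ≤ cos (φ * u) := by
    rw [← Real.cos_abs (φ * u), abs_mul, abs_of_pos h0]
    apply Real.cos_le_cos_of_nonneg_of_le_pi (by positivity)
    · linarith [Real.pi_gt_three]
    · nlinarith [abs_nonneg u]
  rw [abs_le]
  constructor <;> linarith

lemma key_id (β φ u : ℝ) :
    (⟨(1 - (u + 1) / 2) * cos (β - φ) + (u + 1) / 2 * cos (β + φ),
      (1 - (u + 1) / 2) * sin (β - φ) + (u + 1) / 2 * sin (β + φ)⟩ : ℂ) -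
        Complex.exp (Complex.I * ((β + φ * u : ℝ) : ℂ)) =
      Complex.exp (Complex.I * (β : ℂ)) * ⟨cos φ - cos (φ * u), u * sin φ - sin (φ * u)⟩ := by
  have g : ∀ r : ℝ, Complex.exp (Complex.I * (r : ℂ)) = ⟨cos r, sin r⟩ := by
    intro r
    rw [mul_comm, Complex.exp_mul_I, ← Complex.ofReal_cos, ← Complex.ofReal_sin]
    apply Complex.ext <;> simp [Complex.cos_ofReal_re, Complex.sin_ofReal_re]
  rw [g, g]
  apply Complex.ext
  · simp only [Complex.sub_re, Complex.mul_re]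
    rw [Real.cos_sub, Real.cos_add, Real.cos_add]
    ring
  · simp only [Complex.sub_im, Complex.mul_im]
    rw [Real.sin_sub, Real.sin_add, Real.sin_add]
    ring

/-- the error of the linear interpolation of a character -/
lemma interp {α q t : ℝ} (h0 : 0 < α) (h1 : α ≤ 1) (ht0 : 0 ≤ t) (ht1 : t ≤ 1) :
    ‖(⟨(1 - t) * cos (α * q) + t * cos (α * (q + 1)), (1 - t) * sin (α * q) +
      t * sin (α * (q + 1))⟩ : ℂ) - Complex.exp (Complex.I * ((α * (q + t) : ℝ) : ℂ))‖ ≤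
      (α / 2) ^ 2 / 2 + (α / 2) ^ 3 / 4 := by
  have hu1 : |2 * t - 1| ≤ 1 := by rw [abs_le]; constructor <;> linarith
  have hφ0 : 0 < α / 2 := by positivity
  have hφ1 : α / 2 ≤ 1 := by linarith
  have key := key_id (α * q + α / 2) (α / 2) (2 * t - 1)
  rw [show α * q + α / 2 - α / 2 = α * q by ring,
    show α * q + α / 2 + α / 2 = α * (q + 1) by ring,
    show α * q + α / 2 + α / 2 * (2 * t - 1) = α * (q + t) by ring,
    show (2 * t - 1 + 1) / 2 = t by ring] at key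
  rw [key, norm_mul, mul_comm Complex.I, Complex.norm_exp_ofReal_mul_I, one_mul]
  exact norm_le_add _ (cos_dev hφ0 hφ1 hu1) (sin_dev' hφ0 hφ1 hu1)

lemma err_num (k : ℕ) (hk : k < 4) :
    ((π / 32 * (k + 1)) / 2) ^ 2 / 2 + ((π / 32 * (k + 1)) / 2) ^ 3 / 4 ≤ ek k := by
  have h1 := Real.pi_lt_d4
  have h0 := Real.pi_pos
  have h2 : π ^ 2 ≤ 3.1416 ^ 2 := pow_le_pow_left₀ h0.le h1.le 2
  have h3 : π ^ 3 ≤ 3.1416 ^ 3 := pow_le_pow_left₀ h0.le h1.le 3
  have e : ((π / 32 * (k + 1)) / 2) ^ 2 / 2 + ((π / 32 * (k + 1)) / 2) ^ 3 / 4 =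
      π ^ 2 * (((k : ℝ) + 1) ^ 2 / 8192) + π ^ 3 * (((k : ℝ) + 1) ^ 3 / 1048576) := by ring
  rw [e]
  have h4 : π ^ 2 * (((k : ℝ) + 1) ^ 2 / 8192) ≤ 3.1416 ^ 2 * (((k : ℝ) + 1) ^ 2 / 8192) := by
    gcongr
  have h5 : π ^ 3 * (((k : ℝ) + 1) ^ 3 / 1048576) ≤ 3.1416 ^ 3 * (((k : ℝ) + 1) ^ 3 / 1048576) := by
    gcongr
  refine (add_le_add h4 h5).trans ?_
  interval_cases k <;> norm_num [ek]

/-- the error at every place -/
theorem interp_all {L : ℕ} (hL : 0 < L) (k : ℕ) (hk : k < 4) (x : ℕ) :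
    ‖(⟨ip L (cc k) x, ip L (ss k) x⟩ : ℂ) -
      Complex.exp (Complex.I * (((π / 32 * (k + 1) / L) * x : ℝ) : ℂ))‖ ≤ ek k := by
  have hLR : (0 : ℝ) < L := by exact_mod_cast hL
  have hk' : (k : ℝ) ≤ 3 := by exact_mod_cast (by omega : k ≤ 3)
  have hpi := Real.pi_lt_d2
  have hpi0 := Real.pi_pos
  have h := interp (α := π / 32 * (k + 1)) (q := ((x / L : ℕ) : ℝ)) (t := fr L x)
    (by positivity) (by nlinarith) (fr_nonneg L x) (fr_lt hL x).le
  have e1 : π / 32 * ((k : ℝ) + 1) * (((x / L : ℕ) : ℝ) + fr L x) =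
      π / 32 * (k + 1) / L * x := by
    have h2 : (x : ℝ) = L * ((x / L : ℕ) : ℝ) + ((x % L : ℕ) : ℝ) := by
      exact_mod_cast (Nat.div_add_mod x L).symm
    have h3 : π / 32 * ((k : ℝ) + 1) / L * (x : ℝ) =
        π / 32 * (k + 1) / L * (L * ((x / L : ℕ) : ℝ) + ((x % L : ℕ) : ℝ)) := by rw [← h2]
    rw [h3]
    unfold fr
    field_simp
  rw [e1] at h
  have e2 : ∀ q : ℕ, π / 32 * ((k : ℝ) + 1) * (q : ℝ) = π / 32 * (((k + 1) * q : ℕ) : ℝ) := by
    intro q; push_cast; ring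
  have e3 : π / 32 * ((k : ℝ) + 1) * (((x / L : ℕ) : ℝ) + 1) =
      π / 32 * (((k + 1) * (x / L + 1) : ℕ) : ℝ) := by
    push_cast; ring
  rw [e3, e2] at h
  unfold ip cc ss
  exact h.trans (err_num k hk)

end Pool.Agent.U278.SD
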