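import Pool.Agent.U278.SD.Cos

/-!
# The kernel on the grid is nonnegative
-/

set_option autoImplicit false

open Real Finset

namespace Pool.Agent.U278.SD

/-- the weights of the frequencies -/
noncomputable def vk (k : ℕ) : ℝ :=
  match k with
  | 0 => 298 / 1000 | 1 => 147 / 1000 | 2 => 74 / 1000 | 3 => 24 / 1000 | _ => 0

/-- cosines -/
noncomputable def cc (k i : ℕ) : ℝ := cos (π / 32 * ((k + 1) * i : ℕ))
/-- sines -/
noncomputable def ss (k i : ℕ) : ℝ := sin (π / 32 * ((k + 1) * i : ℕ))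
/-- the vectors of the positive semidefinite part -/
noncomputable def gg (b i : ℕ) : ℝ := (gt b i : ℝ) / 1000
/-- the weights of the sums -/
noncomputable def ww (k : ℕ) : ℝ := (wt k : ℝ) / 10 ^ 6
/-- the smoothed weights of the sums -/
noncomputable def uu (k : ℕ) : ℝ := (ut k : ℝ) / 10 ^ 6

lemma vk_nonneg (k : ℕ) : 0 ≤ vk k := by
  unfold vk
  split <;> norm_num

lemma ww_nonneg (k : ℕ) : 0 ≤ ww k := by unfold ww; positivity
lemma uu_nonneg (k : ℕ) : 0 ≤ uu k := by unfold uu; positivity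

/-- the kernel -/
noncomputable def ker (i j : ℕ) : ℝ :=
  10092 / 10000 - ww (i + j) - ∑ k ∈ range 4, vk k * (1 - (cc k i * cc k j + ss k i * ss k j)) -
    ∑ b ∈ range 8, gg b i * gg b j

lemma cos_mod (m : ℕ) : cos (π / 32 * (m : ℕ)) = cos (π / 32 * (m % 64 : ℕ)) := by
  have h : (m : ℝ) = 64 * (m / 64 : ℕ) + (m % 64 : ℕ) := by
    exact_mod_cast (Nat.div_add_mod m 64).symm
  have e : π / 32 * (m : ℝ) = π / 32 * ((m % 64 : ℕ) : ℝ) + ((m / 64 : ℕ) : ℝ) * (2 * π) := by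
    rw [h]
    push_cast
    have h2 : ((64 * (m / 64) + m % 64 : ℕ) : ℝ) = (m : ℝ) := by
      exact_mod_cast congrArg (fun t : ℕ => (t : ℝ)) (Nat.div_add_mod m 64)
    have h3 : ((64 * (((m / 64 : ℕ) : ℝ)) + ((m % 64 : ℕ) : ℝ)) : ℝ) = m := by exact_mod_cast h2
    ring
  rw [e, Real.cos_add_nat_mul_two_pi]

lemma cc_ge (k i j : ℕ) (hj : j ≤ 64) :
    (ct ((k + 1) * (i + 64 - j) % 64) : ℝ) / 10 ^ 6 ≤ cc k i * cc k j + ss k i * ss k j := by
  have h1 := ct_le ((k + 1) * (i + 64 - j) % 64) (Nat.mod_lt _ (by norm_num))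
  rw [← cos_mod] at h1
  unfold cc ss
  rw [← Real.cos_sub]
  have e : π / 32 * (((k + 1) * (i + 64 - j) : ℕ) : ℝ) =
      π / 32 * (((k + 1) * i : ℕ) : ℝ) - π / 32 * (((k + 1) * j : ℕ) : ℝ) +
        ((k + 1 : ℕ) : ℝ) * (2 * π) := by
    have h2 : (((k + 1) * (i + 64 - j) : ℕ) : ℝ) = (k + 1) * ((i : ℝ) + 64 - j) := by
      rw [Nat.cast_mul, Nat.cast_sub (by omega)]; push_cast; ring
    rw [h2]; push_cast; ring
  rw [e, Real.cos_add_nat_mul_two_pi] at h1
  exact h1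

theorem ker_nonneg (i j : ℕ) (hi : i ≤ 64) (hj : j ≤ 64) : 0 ≤ ker i j := by
  have h := chk_true
  unfold chk at h
  rw [List.all_eq_true] at h
  have h1 := h i (List.mem_range.mpr (by omega))
  rw [List.all_eq_true] at h1
  have h2 := h1 j (List.mem_range.mpr (by omega))
  rw [decide_eq_true_eq] at h2
  have h3 : (0 : ℝ) ≤ (val i j : ℝ) := by exact_mod_cast h2
  have c0 := cc_ge 0 i j hj
  have c1 := cc_ge 1 i j hj
  have c2 := cc_ge 2 i j hj
  have c3 := cc_ge 3 i j hj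
  rw [show (0 + 1) * (i + 64 - j) = i + 64 - j by ring] at c0
  simp only [show (1 + 1 : ℕ) = 2 from rfl, show (2 + 1 : ℕ) = 3 from rfl,
    show (3 + 1 : ℕ) = 4 from rfl] at c1 c2 c3
  unfold val at h3
  push_cast at h3
  unfold ker
  simp only [sum_range_succ, sum_range_zero, vk, gg, ww]
  linarith

end Pool.Agent.U278.SD
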