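import Pool.Agent.U278.SD.Dig
import Pool.Agent.H820R3.DG.Quad

/-!
# Digit sums of quadratic irrationals, with the constant `11 / 10`
-/

set_option autoImplicit false
set_option linter.unusedSectionVars false

open Finset

namespace Pool.Agent.U278.SD

open Pool.Agent.H394R2.Ones Pool.Agent.H820R3.DG

/-- from the squares to the numbers -/
lemma finish {κ2 K C3 n : ℝ} (hκ : 0 ≤ κ2) (hK : 0 ≤ K) (hC : 0 ≤ C3) (hn : 0 ≤ n)
    (h : κ2 * n ≤ K ^ 2 + C3 * (K + 1)) :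
    Real.sqrt κ2 * Real.sqrt n ≤ K + (C3 / 2 + 1) := by
  rw [← Real.sqrt_mul hκ]
  apply Real.sqrt_le_left (by positivity) |>.mpr
  nlinarith

section
variable {b : ℕ} {y : ℝ}

/-- digit sums of quadratic irrationals in `(0, 1)` -/
theorem quad_main11 (hb : 2 ≤ b) (hy0 : 0 < y) (hy1 : y < 1) (hirr : Irrational y) {A B C : ℤ}
    (hA : 0 < A) (hq : (A : ℝ) * y ^ 2 + B * y + C = 0) (ε : ℝ) (hε : 0 < ε) :
    ∃ n0 : ℕ, ∀ n : ℕ, n0 ≤ n →
      (Real.sqrt (11 * ((b : ℝ) - 1) * (Int.gcd b (2 * A) : ℕ) / (10 * A)) - ε) * Real.sqrt n ≤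
        K b y n := by
  have hbR : (2 : ℝ) ≤ b := by exact_mod_cast hb
  have hb1 : (0 : ℝ) ≤ (b : ℝ) - 1 := by linarith
  have hAR : (1 : ℝ) ≤ A := by exact_mod_cast hA
  have halg : IsAlgebraic ℚ y := by
    refine ⟨Polynomial.C (A : ℚ) * Polynomial.X ^ 2 + Polynomial.C (B : ℚ) * Polynomial.X +
      Polynomial.C (C : ℚ), ?_, ?_⟩
    · intro h
      have h1 := congrArg (fun p => Polynomial.coeff p 2) h
      simp only [Polynomial.coeff_add, Polynomial.coeff_C_mul, Polynomial.coeff_X_pow,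
        Polynomial.coeff_X, Polynomial.coeff_C, Polynomial.coeff_zero] at h1
      norm_num at h1
      omega
    · simp only [map_add, map_mul, map_pow, Polynomial.aeval_X, Polynomial.aeval_C]
      simpa using hq
  set g : ℕ := Int.gcd b (2 * A) with hg
  set τ : ℝ := (g : ℝ) / A with hτ
  have hτ0 : 0 ≤ τ := by positivity
  set κ2 : ℝ := 11 * ((b : ℝ) - 1) * g / (10 * A) with hκ2
  have hκ20 : 0 ≤ κ2 := by
    rw [hκ2]
    apply div_nonneg _ (by linarith)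
    positivity
  have hκτ : κ2 = 11 / 10 * (((b : ℝ) - 1) * τ) := by
    rw [hκ2, hτ]; field_simp
  set κ : ℝ := Real.sqrt κ2 with hκ
  have hκ0 : 0 ≤ κ := Real.sqrt_nonneg _
  -- the parameter
  set δ : ℝ := min (1 / 8) (ε / (8 * (κ + 1))) with hδ
  have hδ0 : 0 < δ := by positivity
  have hδ1 : δ ≤ 1 / 8 := min_le_left _ _
  have hδ2 : δ * (8 * (κ + 1)) ≤ ε := by
    rw [← le_div_iff₀ (by positivity)]; exact min_le_right _ _
  obtain ⟨C1, hC10, hC1⟩ := bad_count hb hy0 hy1 halg hirr |(B : ℝ)| δ hδ0 (by linarith)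
  have hB0 : 0 ≤ |(B : ℝ)| := abs_nonneg _
  set C2 : ℝ := |(B : ℝ)| + 2 * τ + τ * C1 + τ with hC2
  have hC20 : 0 ≤ C2 := by positivity
  have hbC2 : 0 ≤ ((b : ℝ) - 1) * C2 := mul_nonneg hb1 hC20
  have hbτ : 0 ≤ ((b : ℝ) - 1) * τ := mul_nonneg hb1 hτ0
  set C3 : ℝ := 4 * (((b : ℝ) - 1) * C2) + (52 * b + 130) + 110 * (((b : ℝ) - 1) * τ) with hC3
  have hC30 : 0 ≤ C3 := by positivity
  obtain ⟨n1, hn1⟩ := exists_nat_ge ((2 * (C3 / 2 + 1) / ε) ^ 2)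
  refine ⟨n1, fun n hn => ?_⟩
  have hK : (0 : ℝ) ≤ K b y n := Nat.cast_nonneg _
  have hn0 : (0 : ℝ) ≤ n := Nat.cast_nonneg _
  have hD : ∑ m ∈ range n, dd b y τ |(B : ℝ)| m ≤ C2 * (K b y n + 1) + τ * δ * n := by
    unfold dd
    rw [sum_add_distrib, sum_add_distrib, sum_add_distrib, ← mul_sum, ← mul_sum, ← mul_sum,
      sum_add_distrib]
    have h1 := ep_sum (b := b) hb hy0 hy1 n
    have h2 : (∑ m ∈ range n, (x b y m : ℝ)) ≤ K b y n := by
      unfold K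
      exact_mod_cast sum_le_sum_of_subset (range_mono (Nat.le_succ n))
    have h3 : (∑ m ∈ range n, (exc b y m : ℝ)) ≤ K b y n := by
      exact_mod_cast exc_sum b y n
    have h4 : (∑ m ∈ range n, (if T b y m ≤ |(B : ℝ)| * ep b y m then (1 : ℝ) else 0)) ≤
        C1 * (K b y n + 1) + δ * n := by
      have h5 := hC1 n
      rw [card_filter] at h5
      push_cast at h5
      exact h5
    have h5 := few_sum 0 n τ hτ0
    rw [Nat.cast_zero, zero_add, mul_one] at h5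
    have h6 := mul_le_mul_of_nonneg_left h1 hB0
    have h7 := mul_le_mul_of_nonneg_left (add_le_add h2 h3) hτ0
    have h8 := mul_le_mul_of_nonneg_left h4 hτ0
    have h9 : 0 ≤ τ * K b y n := mul_nonneg hτ0 hK
    have e : C2 * ((K b y n : ℝ) + 1) = |(B : ℝ)| * (K b y n + 1) + 2 * (τ * K b y n) + 2 * τ +
        τ * (C1 * (K b y n + 1)) + τ * K b y n + τ := by rw [hC2]; ring
    rw [e]
    linarith
  have hmain := main11 hb hy0 hy1 hirr (τ := τ) (n := n)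
    (fun m => dd_nonneg hy0 hτ0 hB0 m) (fun m => T_lower' hb hy0 hy1 hirr hA hq m) hτ0 hD
  rw [← hκτ] at hmain
  have h1 : κ2 * (1 - 4 * δ) * n ≤ (K b y n : ℝ) ^ 2 + C3 * (K b y n + 1) := by
    have e1 : 4 * (((b : ℝ) - 1) * (τ * δ * n)) ≤ κ2 * (4 * δ) * n := by
      have : 4 * (((b : ℝ) - 1) * (τ * δ * n)) = 4 * (δ * n) * (((b : ℝ) - 1) * τ) := by ring
      rw [this, hκτ]
      have h2 : 0 ≤ δ * n := mul_nonneg hδ0.le hn0
      nlinarith [mul_nonneg h2 hbτ]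
    have e2 : 110 * (((b : ℝ) - 1) * τ) ≤ 110 * (((b : ℝ) - 1) * τ) * (K b y n + 1) := by
      nlinarith
    rw [hC3]
    nlinarith
  have hκδ : 0 ≤ κ2 * (1 - 4 * δ) := mul_nonneg hκ20 (by linarith)
  have h2 := finish hκδ hK hC30 hn0 h1
  have h2' : κ * (1 - 4 * δ) * Real.sqrt n ≤ K b y n + (C3 / 2 + 1) := by
    refine le_trans ?_ h2
    apply mul_le_mul_of_nonneg_right _ (Real.sqrt_nonneg _)
    rw [Real.sqrt_mul hκ20]
    apply mul_le_mul_of_nonneg_left _ hκ0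
    apply Real.le_sqrt_of_sq_le
    nlinarith
  have hs0 := Real.sqrt_nonneg (n : ℝ)
  have h3 : 2 * (C3 / 2 + 1) / ε ≤ Real.sqrt n := by
    apply Real.le_sqrt_of_sq_le
    exact hn1.trans (by exact_mod_cast hn)
  rw [div_le_iff₀ hε] at h3
  have h4 : κ * (4 * δ) * Real.sqrt n ≤ ε / 2 * Real.sqrt n := by
    apply mul_le_mul_of_nonneg_right _ hs0
    nlinarith
  nlinarith

/-- digit sums of square roots -/
theorem sqrt_main11 (hb : 2 ≤ b) (hy0 : 0 < y) (hy1 : y < 1) (hirr : Irrational y) {s : ℕ}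
    (hs : ∃ D : ℤ, y ^ 2 * (b : ℝ) ^ s = D) (n : ℕ) :
    11 / 10 * (((b : ℝ) - 1) * (Nat.gcd b 2 : ℕ)) * n ≤ (K b y n : ℝ) ^ 2 +
      (56 * b + 126 + 8 * (b * (s + 1)) + 220 * b) * (K b y n + 1) := by
  have hbR : (2 : ℝ) ≤ b := by exact_mod_cast hb
  have hK : (0 : ℝ) ≤ K b y n := Nat.cast_nonneg _
  have hg := gcd_le (b := b)
  have hg0 : (0 : ℝ) ≤ ((Nat.gcd b 2 : ℕ) : ℝ) := Nat.cast_nonneg _
  have hs0 : (0 : ℝ) ≤ s := Nat.cast_nonneg _
  have hD : ∑ m ∈ range n, ((exc b y m : ℝ) + (if m ≤ s then 2 else 0)) ≤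
      K b y n + 2 * (s + 1) := by
    rw [sum_add_distrib]
    have h3 : (∑ m ∈ range n, (exc b y m : ℝ)) ≤ K b y n := by
      exact_mod_cast exc_sum b y n
    have h4 := few_sum s n 2 (by norm_num)
    linarith
  have h := main11 (d := fun m => (exc b y m : ℝ) + (if m ≤ s then 2 else 0))
    (τ := ((Nat.gcd b 2 : ℕ) : ℝ)) hb hy0 hy1 hirr ?_ ?_ hg0 hD
  · have h1 : ((b : ℝ) - 1) * (Nat.gcd b 2 : ℕ) ≤ 2 * b := by nlinarith
    have h2 : 0 ≤ (b : ℝ) * s := by positivity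
    have h3 : 0 ≤ (b : ℝ) * s * K b y n := by positivity
    have h4 : 0 ≤ (b : ℝ) * K b y n := by positivity
    nlinarith
  · intro m
    have : (0 : ℝ) ≤ exc b y m := Nat.cast_nonneg _
    split_ifs <;> linarith
  · intro m
    have h0 : (0 : ℝ) ≤ exc b y m := Nat.cast_nonneg _
    by_cases hm : m ≤ s
    · simp only [if_pos hm]
      have := T_pos hb hy0 hy1 hirr m
      linarith
    · simp only [if_neg hm]
      have := T_lower hb hy0 hy1 hirr hs (m := m) (by omega)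
      linarith

end

/-- digit sums of real quadratic irrationals -/
theorem quad_real11 {b : ℕ} (hb : 2 ≤ b) {A B C : ℤ} (hA : 0 < A) {ξ : ℝ} (hirr : Irrational ξ)
    (hq : (A : ℝ) * ξ ^ 2 + B * ξ + C = 0) (ε : ℝ) (hε : 0 < ε) :
    ∃ n0 : ℕ, ∀ n : ℕ, n0 ≤ n →
      (Real.sqrt (11 * ((b : ℝ) - 1) * (Int.gcd b (2 * A) : ℕ) / (10 * A)) - ε) * Real.sqrt n ≤
        ((∑ k ∈ range n, ⌊ξ * (b : ℝ) ^ (k + 1)⌋ % (b : ℤ) : ℤ) : ℝ) := by
  set y : ℝ := Int.fract ξ with hy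
  have hξ : ξ = ⌊ξ⌋ + y := (Int.floor_add_fract ξ).symm
  have hyirr : Irrational y := by
    have : y = ξ - (⌊ξ⌋ : ℤ) := rfl
    rw [this]
    exact hirr.sub_intCast _
  have hy0 : 0 < y := lt_of_le_of_ne (Int.fract_nonneg ξ) (Ne.symm hyirr.ne_zero)
  have hy1 : y < 1 := Int.fract_lt_one ξ
  have hq' : (A : ℝ) * y ^ 2 + ((B + 2 * A * ⌊ξ⌋ : ℤ) : ℝ) * y +
      ((C + B * ⌊ξ⌋ + A * ⌊ξ⌋ ^ 2 : ℤ) : ℝ) = 0 := by
    have h1 : (A : ℝ) * (⌊ξ⌋ + y) ^ 2 + B * (⌊ξ⌋ + y) + C = 0 := by rw [← hξ]; exact hq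
    push_cast
    linarith
  obtain ⟨n0, hn0⟩ := quad_main11 hb hy0 hy1 hyirr hA hq' ε hε
  refine ⟨n0, fun n hn => (hn0 n hn).trans (le_of_eq ?_)⟩
  have hdig : ∀ k : ℕ, ⌊ξ * (b : ℝ) ^ (k + 1)⌋ % (b : ℤ) = (x b y (k + 1) : ℤ) := by
    intro k
    have h1 : ξ * (b : ℝ) ^ (k + 1) = ((⌊ξ⌋ * (b : ℤ) ^ (k + 1) : ℤ) : ℝ) +
        y * (b : ℝ) ^ (k + 1) := by
      nth_rewrite 1 [hξ]
      push_cast
      ring
    rw [h1, Int.floor_intCast_add]
    unfold x Pool.Agent.H394R2.Ones.B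
    push_cast
    rw [Int.natCast_floor_eq_floor (by positivity)]
    rw [show ⌊ξ⌋ * (b : ℤ) ^ (k + 1) + ⌊y * (b : ℝ) ^ (k + 1)⌋ =
      ⌊y * (b : ℝ) ^ (k + 1)⌋ + (b : ℤ) * (⌊ξ⌋ * (b : ℤ) ^ k) by ring, Int.add_mul_emod_self_left]
  simp only [hdig]
  unfold K
  rw [sum_range_succ']
  rw [x_zero hy0 hy1, add_zero]
  push_cast
  rfl

/-- **Digit sums of square roots.** -/
theorem digit_sum11 (d b : ℕ) (hd : ¬ IsSquare d) (hb : 2 ≤ b) :
    ∃ C : ℝ, ∀ n : ℕ,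
      Real.sqrt (11 * ((b : ℝ) - 1) * (Nat.gcd b 2 : ℕ) / 10) * Real.sqrt n - C ≤
        ((∑ k ∈ range n, ⌊Real.sqrt d * (b : ℝ) ^ (k + 1)⌋₊ % b : ℕ) : ℝ) := by
  have hbR : (2 : ℝ) ≤ b := by exact_mod_cast hb
  have hb0 : (0 : ℝ) < b := by linarith
  have hirr : Irrational (Real.sqrt d) := by
    rw [irrational_sqrt_natCast_iff]; exact hd
  have hd0 : 0 < d := by
    rcases Nat.eq_zero_or_pos d with h | h
    · exact absurd ⟨0, by simp [h]⟩ hd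
    · exact h
  have hsd : 0 < Real.sqrt d := Real.sqrt_pos.mpr (by exact_mod_cast hd0)
  -- the shift
  set t := d with ht
  have hbt : Real.sqrt d < (b : ℝ) ^ t := by
    have h1 : Real.sqrt d ≤ d := by
      rw [Real.sqrt_le_left (Nat.cast_nonneg _)]
      have : (1 : ℝ) ≤ d := by exact_mod_cast hd0
      nlinarith
    have h2 : (d : ℝ) < (b : ℝ) ^ t := by
      have : d < b ^ d := Nat.lt_pow_self (by omega)
      exact_mod_cast this
    linarith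
  set y : ℝ := Real.sqrt d / (b : ℝ) ^ t with hy
  have hbt0 : (0 : ℝ) < (b : ℝ) ^ t := by positivity
  have hy0 : 0 < y := div_pos hsd hbt0
  have hy1 : y < 1 := by rw [hy, div_lt_one hbt0]; exact hbt
  have hyi : Irrational y := by
    rw [hy]
    have : Irrational (Real.sqrt d / ((b ^ t : ℕ) : ℝ)) := hirr.div_natCast (by positivity)
    exact_mod_cast this
  have hs : ∃ D : ℤ, y ^ 2 * (b : ℝ) ^ (2 * t) = D := by
    refine ⟨d, ?_⟩
    rw [hy, div_pow, Real.sq_sqrt (Nat.cast_nonneg _), mul_comm 2 t, pow_mul]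
    field_simp
    norm_cast
  have hdig : ∀ k, x b y (t + k) = ⌊Real.sqrt d * (b : ℝ) ^ k⌋₊ % b := by
    intro k
    unfold x B
    congr 2
    rw [hy, pow_add]
    field_simp
  have hKn : ∀ n, (K b y (n + t) : ℝ) ≤
      ((∑ k ∈ range n, ⌊Real.sqrt d * (b : ℝ) ^ (k + 1)⌋₊ % b : ℕ) : ℝ) + (t + 1) * b := by
    intro n
    have h1 : K b y (n + t) = ∑ i ∈ range (t + 1), x b y i +
        ∑ k ∈ range n, ⌊Real.sqrt d * (b : ℝ) ^ (k + 1)⌋₊ % b := by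
      unfold K
      rw [show n + t + 1 = (t + 1) + n by ring, sum_range_add]
      congr 1
      refine sum_congr rfl fun k _ => ?_
      rw [show t + 1 + k = t + (k + 1) by ring, hdig]
    have h2 : ∑ i ∈ range (t + 1), x b y i ≤ (t + 1) * b := by
      calc ∑ i ∈ range (t + 1), x b y i ≤ ∑ i ∈ range (t + 1), b :=
            sum_le_sum fun i _ => by unfold x; exact (Nat.mod_lt _ (by omega)).le
        _ = (t + 1) * b := by rw [sum_const, card_range, smul_eq_mul]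
    rw [h1]
    push_cast
    have h3 : ((∑ i ∈ range (t + 1), x b y i : ℕ) : ℝ) ≤ (((t + 1) * b : ℕ) : ℝ) := by
      exact_mod_cast h2
    push_cast at h3
    linarith
  -- conclusion
  set C3 : ℝ := 56 * b + 126 + 8 * (b * ((2 * t : ℕ) + 1)) + 220 * b with hC3
  have hC30 : 0 ≤ C3 := by positivity
  refine ⟨(C3 / 2 + 1) + (t + 1) * b, fun n => ?_⟩
  have hm := sqrt_main11 hb hy0 hy1 hyi hs (n + t)
  have hK : (0 : ℝ) ≤ K b y (n + t) := Nat.cast_nonneg _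
  have hg0 : (0 : ℝ) ≤ ((Nat.gcd b 2 : ℕ) : ℝ) := Nat.cast_nonneg _
  have hbg : 0 ≤ ((b : ℝ) - 1) * (Nat.gcd b 2 : ℕ) := mul_nonneg (by linarith) hg0
  have h1 := finish (κ2 := 11 * ((b : ℝ) - 1) * (Nat.gcd b 2 : ℕ) / 10) (n := n) (by nlinarith)
    hK hC30 (Nat.cast_nonneg _) (by
      refine le_trans ?_ hm
      push_cast
      have h2 : 0 ≤ ((b : ℝ) - 1) * (Nat.gcd b 2 : ℕ) * t := mul_nonneg hbg (Nat.cast_nonneg _)
      nlinarith)
  have h3 := hKn n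
  linarith

end Pool.Agent.U278.SD
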